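import Pool.Agent.H29.Q.Main

/-!
# The lower bound for `Q n` [H29 Q]
-/

set_option autoImplicit false

namespace Pool.Agent.H29.Q

theorem qq_le (k : ℤ) (hk : 1 ≤ k) (i : Fin 5) : qq k i ≤ 77 * k := by
  fin_cases i <;> simp [qq] <;> omega

theorem prod_qq_le (k : ℤ) (hk : 1 ≤ k) : ∏ i, qq k i ≤ (77 * k) ^ 5 := by
  calc ∏ i, qq k i ≤ ∏ _i : Fin 5, 77 * k :=
        Finset.prod_le_prod (fun i _ => (qq_pos k hk i).le) (fun i _ => qq_le k hk i)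
    _ = (77 * k) ^ 5 := by simp

theorem GG_card_le (N e k : ℤ) (he : 10 ≤ e) (hN2 : 20000 * e ≤ N) : ((GG N e k).card : ℤ) ≤ N := by
  have h1 : (GG N e k).card ≤ (Finset.Icc (1000 * e + 3) (N - 1000 * e)).card :=
    Finset.card_le_card (Finset.filter_subset _ _)
  have h3 : ((Finset.Icc (1000 * e + 3) (N - 1000 * e)).card : ℤ) = N - 2000 * e - 2 := by
    rw [Int.card_Icc, Int.toNat_of_nonneg (by linarith)]
    ring
  have h2 : ((GG N e k).card : ℤ) ≤ ((Finset.Icc (1000 * e + 3) (N - 1000 * e)).card : ℤ) := by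
    exact_mod_cast h1
  linarith

theorem rp {n k F g e L : ℝ} (hk : 1 ≤ k) (hn : 0 ≤ n) (h1 : k * g ≤ k * F + 1292800 * g)
    (h2 : 2 * k * (n - 2000 * e) ≤ 2 * k * g + (n + 2 + 60 * k)) (h3 : g ≤ n + 2)
    (h4 : e ≤ L * k ^ 6) (hL : 0 ≤ L) :
    n - (2000 * L + 4000000) * (k ^ 6 + n / k) ≤ F := by
  have hk0 : (0 : ℝ) < k := by linarith
  obtain ⟨x, hx⟩ : ∃ x, x = n / k := ⟨_, rfl⟩
  have hxk : n = x * k := by rw [hx, div_mul_cancel₀ _ hk0.ne']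
  have hx0 : 0 ≤ x := by rw [hx]; positivity
  have hk6 : (1 : ℝ) ≤ k ^ 6 := one_le_pow₀ hk
  rw [← hx]
  have h5 : g - F ≤ 1292800 * (x + 2) := by
    refine le_of_mul_le_mul_left ?_ hk0
    nlinarith
  have h6 : n - 2000 * e - g ≤ (x + 62) / 2 := by
    refine le_of_mul_le_mul_left ?_ hk0
    nlinarith
  have h7 := mul_nonneg hL hx0
  nlinarith

theorem bound (n k : ℕ) (L : ℝ) (hL : L = 104 * 77 ^ 5) (hn : n % 6 = 3) (hk : 1 ≤ k)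
    (hD : (20000 * 104 * 77 ^ 5 : ℝ) * (k : ℝ) ^ 6 ≤ n) :
    (n : ℝ) - (2000 * L + 4000000) * ((k : ℝ) ^ 6 + n / k) ≤ Q n := by
  have hkZ : (1 : ℤ) ≤ k := by exact_mod_cast hk
  set P : ℤ := ∏ i, qq (k : ℤ) i with hP
  have hP1 : 1 ≤ P := Finset.prod_pos fun i _ => qq_pos _ hkZ i
  have hP2 : P ≤ (77 * (k : ℤ)) ^ 5 := prod_qq_le _ hkZ
  obtain ⟨e, he⟩ : ∃ e : ℤ, e = 2 * P * ((k : ℤ) + 51) := ⟨_, rfl⟩
  have he10 : 10 ≤ e := by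
    rw [he]
    nlinarith
  have heu : e ≤ 104 * 77 ^ 5 * (k : ℤ) ^ 6 := by
    have h1 : (k : ℤ) + 51 ≤ 52 * k := by linarith
    have h2 : (0 : ℤ) ≤ (k : ℤ) + 51 := by linarith
    calc e = 2 * P * ((k : ℤ) + 51) := he
      _ ≤ 2 * (77 * (k : ℤ)) ^ 5 * (52 * k) := by
          apply mul_le_mul _ h1 h2 (by positivity)
          linarith
      _ = 104 * 77 ^ 5 * (k : ℤ) ^ 6 := by ring
  obtain ⟨N, hNdef⟩ : ∃ N : ℤ, N = (n : ℤ) + 2 := ⟨_, rfl⟩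
  have hN : N % 6 = 5 := by omega
  have hDZ : (20000 * 104 * 77 ^ 5 : ℤ) * (k : ℤ) ^ 6 ≤ n := by exact_mod_cast hD
  have hN2 : 20000 * e ≤ N := by linarith
  obtain ⟨F, hF, hc⟩ := main N e k k hN he10 hN2 hkZ hk (le_of_eq (by rw [he]))
  have hnN : (N - 2).toNat = n := by omega
  rw [hnN] at hF
  have hQ := le_Q n F hF
  have hg1 := GG_card N e k hkZ he10 hN2
  have hg2 := GG_card_le N e k he10 hN2
  obtain ⟨g, hg⟩ : ∃ g : ℕ, g = (GG N e k).card := ⟨_, rfl⟩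
  rw [← hg] at hc hg1 hg2
  have h1 : (k : ℝ) * g ≤ k * F.card + 20 * 32320 * (g * 2) := by exact_mod_cast hc
  have h2 : (2 : ℝ) * k * ((N : ℝ) - 2000 * e - 2) ≤ 2 * k * g + (N + 60 * k) := by
    exact_mod_cast hg1
  have hNR : (N : ℝ) = n + 2 := by rw [hNdef]; push_cast; ring
  have h3 : (g : ℝ) ≤ N := by exact_mod_cast hg2
  rw [hNR] at h2 h3
  have h4 : (e : ℝ) ≤ 104 * 77 ^ 5 * (k : ℝ) ^ 6 := by exact_mod_cast heu
  rw [← hL] at h4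
  have hFQ : (F.card : ℝ) ≤ Q n := by exact_mod_cast hQ
  have hL0 : 0 ≤ L := by rw [hL]; positivity
  refine (rp (by exact_mod_cast hk) (Nat.cast_nonneg n) ?_ ?_ h3 h4 hL0).trans hFQ
  · linarith
  · linarith

theorem lower : ∃ C : ℝ, ∀ n : ℕ, n % 6 = 3 → (n : ℝ) - C * (n : ℝ) ^ ((6 : ℝ) / 7) ≤ Q n :=
  fin Q _ _ fun n k hn hk hD => bound n k _ rfl hn hk hD

end Pool.Agent.H29.Q
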