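import Pool.Agent.H29.Q.Defs

/-!
# Module COMB [H29 Q]: two switches complete a class

`N % 6 = 5`, `4 ≤ c < N`, `c' = N + 3 - c`. The half turn `(x, y) ↦ (N - 3 - x, N - 3 - y)` maps class
`c'` to class `c` (omega). Class `c` (relation `Bs N c`) has no queen in the rows
`uu N c` and `N - 3 - uu N c'` (these are different) and in the columns `c - 2` and
`c - 4 = N - 3 - (c' - 2)`, and exactly one queen in every other row and column
(`y` is determined by `x` because `0 ≤ y < N`; `x` is determined by `y` since `N` is odd).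
The pattern: all queens of class `c` not in `H` and not in the half turn of `H'`, together with `C`
and the half turn of `C'` (shifted by 1 to coordinates `1 .. N - 2` and cast to `ℕ`). It covers every
row; two of its queens never share a row, column or diagonal:
old - old: class `c` (differences of rows `< N`, `N` coprime to 6);
old - new: rows and columns by `Sw.rows`, `Sw.cols` and the uniqueness above, diagonals by `Sw.free`
(transported by the half turn for `C'`);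
new - new inside `C`: rows by `Sw.nodup` (and row `uu N c` is empty), columns by `Sw.cols`
(the columns of different queens of class `c` are different, column `c - 2` is empty), diagonals by
`p1`; between `C` and the turned `C'`: rows and columns by `hr`, diagonals by `hd`.
Note: removed sets are disjoint by `hr`.
-/

set_option autoImplicit false

namespace Pool.Agent.H29.Q

private def RR (p q : ℤ × ℤ) : Prop :=
  p.1 ≠ q.1 ∧ p.2 ≠ q.2 ∧ p.1 - p.2 ≠ q.1 - q.2 ∧ p.1 + p.2 ≠ q.1 + q.2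

private def rot (N : ℤ) (p : ℤ × ℤ) : ℤ × ℤ := (N - 3 - p.1, N - 3 - p.2)

private theorem rot_rot (N : ℤ) (p : ℤ × ℤ) : rot N (rot N p) = p := by
  unfold rot
  ext <;> simp

private theorem RR_symm {p q : ℤ × ℤ} (h : RR p q) : RR q p := by
  unfold RR at *
  omega

private theorem RR_rot {N : ℤ} {p q : ℤ × ℤ} (h : RR (rot N p) (rot N q)) : RR p q := by
  unfold RR rot at *
  simp only at h
  omega

private theorem bs_rot {N c x y : ℤ} (h : Bs N c x y) :
    Bs N (N + 3 - c) (N - 3 - x) (N - 3 - y) := by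
  unfold Bs at *
  omega

private theorem row_unique {N c x y y' : ℤ} (h : Bs N c x y) (h' : Bs N c x y') : y = y' := by
  unfold Bs at *
  omega

private theorem col_unique {N c x x' y : ℤ} (hN : N % 6 = 5) (h : Bs N c x y)
    (h' : Bs N c x' y) : x = x' := by
  unfold Bs at *
  omega

private theorem old_old {N c : ℤ} (hN : N % 6 = 5) {p q : ℤ × ℤ} (h : Bs N c p.1 p.2)
    (h' : Bs N c q.1 q.2) (hne : p ≠ q) : RR p q := by
  have h1 : p.1 ≠ q.1 := by
    intro he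
    apply hne
    rw [he] at h
    exact Prod.ext he (row_unique h h')
  unfold Bs at h h'
  unfold RR
  omega

private theorem row_u {N c x y : ℤ} (hN : N % 6 = 5) (_hc : 4 ≤ c) (_hc' : c < N)
    (h : Bs N c x y) : x ≠ uu N c := by
  unfold Bs at h
  unfold uu
  omega

private theorem row_u' {N c x y : ℤ} (hN : N % 6 = 5) (_hc : 4 ≤ c) (_hc' : c < N)
    (h : Bs N c x y) : x ≠ N - 3 - uu N (N + 3 - c) := by
  unfold Bs at h
  unfold uu
  omega

private theorem col_v {N c x y : ℤ} (hN : N % 6 = 5) (_hc : 4 ≤ c) (_hc' : c < N)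
    (h : Bs N c x y) : y ≠ c - 2 := by
  unfold Bs at h
  omega

private theorem col_v' {N c x y : ℤ} (hN : N % 6 = 5) (_hc : 4 ≤ c) (_hc' : c < N)
    (h : Bs N c x y) : y ≠ c - 4 := by
  unfold Bs at h
  omega

private theorem exists_y {N c x : ℤ} (hN : N % 6 = 5) (hc : 4 ≤ c) (hc' : c < N) (h0 : 0 ≤ x)
    (h1 : x < N - 2) (h2 : x ≠ uu N c) (h3 : x ≠ N - 3 - uu N (N + 3 - c)) : ∃ y, Bs N c x y := by
  unfold uu at h2 h3
  by_cases ha : 2 * x + c < N
  · refine ⟨2 * x + c, ?_⟩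
    unfold Bs
    omega
  · by_cases hb : 2 * x + c < 2 * N
    · refine ⟨2 * x + c - N, ?_⟩
      unfold Bs
      omega
    · refine ⟨2 * x + c - 2 * N, ?_⟩
      unfold Bs
      omega

private theorem row_mem {N c u v : ℤ} {H C : List (ℤ × ℤ)} (h1 : Sw N c u v H C) {z : ℤ × ℤ}
    (hz : z ∈ C) : z.1 = u ∨ ∃ q ∈ H, q.1 = z.1 := by
  have h : z.1 ∈ u :: H.map Prod.fst := by
    rw [← h1.rows]
    exact List.mem_map_of_mem hz
  rcases List.mem_cons.1 h with h | h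
  · exact Or.inl h
  · obtain ⟨q, hq, hq2⟩ := List.mem_map.1 h
    exact Or.inr ⟨q, hq, hq2⟩

private theorem col_mem {N c u v : ℤ} {H C : List (ℤ × ℤ)} (h1 : Sw N c u v H C) {z : ℤ × ℤ}
    (hz : z ∈ C) : z.2 = v ∨ ∃ q ∈ H, q.2 = z.2 := by
  have h : z.2 ∈ v :: H.map Prod.snd := h1.cols.mem_iff.1 (List.mem_map_of_mem hz)
  rcases List.mem_cons.1 h with h | h
  · exact Or.inl h
  · obtain ⟨q, hq, hq2⟩ := List.mem_map.1 h
    exact Or.inr ⟨q, hq, hq2⟩

private theorem old_new {N c : ℤ} {H C : List (ℤ × ℤ)} (hN : N % 6 = 5) (hc : 4 ≤ c)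
    (hc' : c < N) (h1 : Sw N c (uu N c) (c - 2) H C) {p z : ℤ × ℤ} (hp : Bs N c p.1 p.2)
    (hpH : p ∉ H) (hz : z ∈ C) : RR p z := by
  have hd := h1.free z hz p.1 p.2 hp hpH
  refine ⟨?_, ?_, hd.1, hd.2⟩
  · intro he
    rcases row_mem h1 hz with h | ⟨q, hq, hq2⟩
    · exact row_u hN hc hc' hp (he.trans h)
    · have hb := h1.base q hq
      rw [hq2, ← he] at hb
      have e : p = q := Prod.ext (he.trans hq2.symm) (row_unique hp hb)
      exact hpH (e ▸ hq)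
  · intro he
    rcases col_mem h1 hz with h | ⟨q, hq, hq2⟩
    · exact col_v hN hc hc' hp (he.trans h)
    · have hb := h1.base q hq
      rw [hq2, ← he] at hb
      have e : p = q := Prod.ext (col_unique hN hp hb) (he.trans hq2.symm)
      exact hpH (e ▸ hq)

private instance : Std.Symm Dg where
  symm := by
    intro p q h
    unfold Dg at *
    omega

private theorem new_new {N c : ℤ} {H C : List (ℤ × ℤ)} (hN : N % 6 = 5) (hc : 4 ≤ c)
    (hc' : c < N) (h1 : Sw N c (uu N c) (c - 2) H C) (p1 : C.Pairwise Dg) {z w : ℤ × ℤ}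
    (hz : z ∈ C) (hw : w ∈ C) (hne : z ≠ w) : RR z w := by
  have hd : Dg z w := p1.forall hz hw hne
  have hr : (C.map Prod.fst).Nodup := by
    rw [h1.rows, List.nodup_cons]
    refine ⟨?_, h1.nodup⟩
    intro h
    obtain ⟨q, hq, hq2⟩ := List.mem_map.1 h
    exact row_u hN hc hc' (h1.base q hq) hq2
  have hcn : (C.map Prod.snd).Nodup := by
    rw [h1.cols.nodup_iff, List.nodup_cons]
    refine ⟨?_, ?_⟩
    · intro h
      obtain ⟨q, hq, hq2⟩ := List.mem_map.1 h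
      exact col_v hN hc hc' (h1.base q hq) hq2
    · refine List.Nodup.map_on ?_ (List.Nodup.of_map Prod.fst h1.nodup)
      intro x hx y hy hxy
      have hb := h1.base x hx
      rw [hxy] at hb
      exact Prod.ext (col_unique hN hb (h1.base y hy)) hxy
  exact ⟨fun he => hne (List.inj_on_of_nodup_map hr hz hw he),
    fun he => hne (List.inj_on_of_nodup_map hcn hz hw he), hd.1, hd.2⟩

private theorem new_rot {N c : ℤ} {H C H' C' : List (ℤ × ℤ)} (hN : N % 6 = 5) (hc : 4 ≤ c)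
    (hc' : c < N) (h1 : Sw N c (uu N c) (c - 2) H C)
    (h2 : Sw N (N + 3 - c) (uu N (N + 3 - c)) (N + 3 - c - 2) H' C')
    (hr : ∀ p ∈ H, ∀ p' ∈ H', p.1 ≠ N - 3 - p'.1)
    (hd : ∀ z ∈ C, ∀ z' ∈ C', Dg z (N - 3 - z'.1, N - 3 - z'.2)) {z w : ℤ × ℤ}
    (hz : z ∈ C) (hw : rot N w ∈ C') : RR z w := by
  have e : w = (N - 3 - (rot N w).1, N - 3 - (rot N w).2) := (rot_rot N w).symm
  have hD : Dg z w := by
    rw [e]
    exact hd z hz _ hw
  have hb : ∀ q ∈ H', Bs N c (N - 3 - q.1) (N - 3 - q.2) := by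
    intro q hq
    have h := bs_rot (h2.base q hq)
    rw [show N + 3 - (N + 3 - c) = c by ring] at h
    exact h
  have hw1 : w.1 = N - 3 - (rot N w).1 := by
    unfold rot
    simp
  have hw2 : w.2 = N - 3 - (rot N w).2 := by
    unfold rot
    simp
  refine ⟨?_, ?_, hD.1, hD.2⟩
  · intro he
    rcases row_mem h1 hz with h | ⟨q, hq, hq2⟩ <;> rcases row_mem h2 hw with h' | ⟨q', hq', hq2'⟩
    · have h3 : uu N c ≠ N - 3 - uu N (N + 3 - c) := by
        unfold uu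
        omega
      apply h3
      rw [← h, he, hw1, h']
    · refine row_u hN hc hc' (hb q' hq') ?_
      rw [hq2', ← hw1, ← he, h]
    · refine row_u' hN hc hc' (h1.base q hq) ?_
      rw [hq2, he, hw1, h']
    · refine hr q hq q' hq' ?_
      rw [hq2, he, hw1, hq2']
  · intro he
    rcases col_mem h1 hz with h | ⟨q, hq, hq2⟩ <;> rcases col_mem h2 hw with h' | ⟨q', hq', hq2'⟩
    · omega
    · refine col_v hN hc hc' (hb q' hq') ?_
      rw [hq2', ← hw2, ← he, h]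
    · refine col_v' hN hc hc' (h1.base q hq) ?_
      rw [hq2, he, hw2, h']
      ring
    · have h3 := h1.base q hq
      have h4 := hb q' hq'
      rw [hq2', ← hw2, ← he, ← hq2] at h4
      exact hr q hq q' hq' (col_unique hN h3 h4)

/-- the squares of the completed class -/
private def DD (N c : ℤ) (H C H' C' : List (ℤ × ℤ)) (p : ℤ × ℤ) : Prop :=
  (Bs N c p.1 p.2 ∧ p ∉ H ∧ rot N p ∉ H') ∨ p ∈ C ∨ rot N p ∈ C'

private theorem dd_pair {N c : ℤ} {H C H' C' : List (ℤ × ℤ)} (hN : N % 6 = 5) (hc : 4 ≤ c)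
    (hc' : c < N) (h1 : Sw N c (uu N c) (c - 2) H C)
    (h2 : Sw N (N + 3 - c) (uu N (N + 3 - c)) (N + 3 - c - 2) H' C')
    (p1 : C.Pairwise Dg) (p2 : C'.Pairwise Dg)
    (hr : ∀ p ∈ H, ∀ p' ∈ H', p.1 ≠ N - 3 - p'.1)
    (hd : ∀ z ∈ C, ∀ z' ∈ C', Dg z (N - 3 - z'.1, N - 3 - z'.2)) {p q : ℤ × ℤ}
    (hp : DD N c H C H' C' p) (hq : DD N c H C H' C' q) (hne : p ≠ q) : RR p q := by
  have hc2 : 4 ≤ N + 3 - c := by omega
  have hc2' : N + 3 - c < N := by omega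
  have hne' : rot N p ≠ rot N q := by
    intro h
    apply hne
    rw [← rot_rot N p, h, rot_rot]
  have key : ∀ p q : ℤ × ℤ, Bs N c p.1 p.2 → rot N p ∉ H' → rot N q ∈ C' → RR p q := by
    intro p q h3 h4 h5
    exact RR_rot (old_new hN hc2 hc2' h2 (bs_rot h3) h4 h5)
  rcases hp with ⟨a1, a2, a3⟩ | a | a <;> rcases hq with ⟨b1, b2, b3⟩ | b | b
  · exact old_old hN a1 b1 hne
  · exact old_new hN hc hc' h1 a1 a2 b
  · exact key p q a1 a3 b
  · exact RR_symm (old_new hN hc hc' h1 b1 b2 a)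
  · exact new_new hN hc hc' h1 p1 a b hne
  · exact new_rot hN hc hc' h1 h2 hr hd a b
  · exact RR_symm (key q p b1 b3 a)
  · exact RR_symm (new_rot hN hc hc' h1 h2 hr hd b a)
  · exact RR_rot (new_new hN hc2 hc2' h2 p2 a b hne')

private theorem sw_range {N c : ℤ} {H C : List (ℤ × ℤ)} (hN : N % 6 = 5) (hc : 4 ≤ c)
    (hc' : c < N) (h1 : Sw N c (uu N c) (c - 2) H C) {z : ℤ × ℤ} (hz : z ∈ C) :
    0 ≤ z.1 ∧ z.1 < N - 2 ∧ 0 ≤ z.2 ∧ z.2 < N - 2 := by
  have ha : 0 ≤ z.1 ∧ z.1 < N - 2 := by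
    rcases row_mem h1 hz with h | ⟨q, hq, hq2⟩
    · rw [h]
      unfold uu
      omega
    · have h3 := h1.base q hq
      rw [hq2] at h3
      exact ⟨h3.1, h3.2.1⟩
  have hb : 0 ≤ z.2 ∧ z.2 < N - 2 := by
    rcases col_mem h1 hz with h | ⟨q, hq, hq2⟩
    · omega
    · have h3 := h1.base q hq
      rw [hq2] at h3
      exact ⟨h3.2.2.1, h3.2.2.2.1⟩
  exact ⟨ha.1, ha.2, hb.1, hb.2⟩

private theorem dd_range {N c : ℤ} {H C H' C' : List (ℤ × ℤ)} (hN : N % 6 = 5) (hc : 4 ≤ c)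
    (hc' : c < N) (h1 : Sw N c (uu N c) (c - 2) H C)
    (h2 : Sw N (N + 3 - c) (uu N (N + 3 - c)) (N + 3 - c - 2) H' C') {p : ℤ × ℤ}
    (hp : DD N c H C H' C' p) : 0 ≤ p.1 ∧ p.1 < N - 2 ∧ 0 ≤ p.2 ∧ p.2 < N - 2 := by
  rcases hp with ⟨a1, -, -⟩ | a | a
  · exact ⟨a1.1, a1.2.1, a1.2.2.1, a1.2.2.2.1⟩
  · exact sw_range hN hc hc' h1 a
  · have h3 := sw_range hN (by omega) (by omega) h2 a
    unfold rot at h3
    simp only at h3
    omega

private theorem dd_row {N c : ℤ} {H C H' C' : List (ℤ × ℤ)} (hN : N % 6 = 5) (hc : 4 ≤ c)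
    (hc' : c < N) (h1 : Sw N c (uu N c) (c - 2) H C)
    (h2 : Sw N (N + 3 - c) (uu N (N + 3 - c)) (N + 3 - c - 2) H' C') {x : ℤ} (h0 : 0 ≤ x)
    (hx : x < N - 2) : ∃ p, DD N c H C H' C' p ∧ p.1 = x := by
  have hC : ∀ y, (y = uu N c ∨ y ∈ H.map Prod.fst) → ∃ z ∈ C, z.1 = y := by
    intro y hy
    have h3 : y ∈ C.map Prod.fst := by
      rw [h1.rows]
      exact List.mem_cons.2 hy
    obtain ⟨z, hz, hz2⟩ := List.mem_map.1 h3
    exact ⟨z, hz, hz2⟩
  have hC' : ∀ y, (y = uu N (N + 3 - c) ∨ y ∈ H'.map Prod.fst) → ∃ z ∈ C', z.1 = y := by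
    intro y hy
    have h3 : y ∈ C'.map Prod.fst := by
      rw [h2.rows]
      exact List.mem_cons.2 hy
    obtain ⟨z, hz, hz2⟩ := List.mem_map.1 h3
    exact ⟨z, hz, hz2⟩
  have hfin' : ∀ y, (y = uu N (N + 3 - c) ∨ y ∈ H'.map Prod.fst) → x = N - 3 - y →
      ∃ p, DD N c H C H' C' p ∧ p.1 = x := by
    intro y hy hxy
    obtain ⟨z, hz, hz2⟩ := hC' y hy
    refine ⟨rot N z, Or.inr (Or.inr (by rw [rot_rot]; exact hz)), ?_⟩
    show N - 3 - z.1 = x
    rw [hz2, hxy]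
  by_cases ha : x = uu N c
  · obtain ⟨z, hz, hz2⟩ := hC x (Or.inl ha)
    exact ⟨z, Or.inr (Or.inl hz), hz2⟩
  by_cases hb : x = N - 3 - uu N (N + 3 - c)
  · exact hfin' _ (Or.inl rfl) hb
  obtain ⟨y, hy⟩ := exists_y hN hc hc' h0 hx ha hb
  by_cases h3 : (x, y) ∈ H
  · obtain ⟨z, hz, hz2⟩ := hC x (Or.inr (List.mem_map.2 ⟨_, h3, rfl⟩))
    exact ⟨z, Or.inr (Or.inl hz), hz2⟩
  by_cases h4 : rot N (x, y) ∈ H'
  · refine hfin' (N - 3 - x) (Or.inr (List.mem_map.2 ⟨_, h4, rfl⟩)) (by ring)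
  · exact ⟨(x, y), Or.inl ⟨hy, h3, h4⟩, rfl⟩

theorem comb (N c : ℤ) (hN : N % 6 = 5) (hc : 4 ≤ c) (hc' : c < N) (H C H' C' : List (ℤ × ℤ))
    (h1 : Sw N c (uu N c) (c - 2) H C)
    (h2 : Sw N (N + 3 - c) (uu N (N + 3 - c)) (N + 3 - c - 2) H' C')
    (p1 : C.Pairwise Dg) (p2 : C'.Pairwise Dg)
    (hr : ∀ p ∈ H, ∀ p' ∈ H', p.1 ≠ N - 3 - p'.1)
    (hd : ∀ z ∈ C, ∀ z' ∈ C', Dg z (N - 3 - z'.1, N - 3 - z'.2)) :
    ∃ P : Finset (ℕ × ℕ), IsPattern (N - 2).toNat P ∧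
      ∀ p ∈ P, Bs N c ((p.1 : ℤ) - 1) ((p.2 : ℤ) - 1) ∨
        ((p.1 : ℤ) - 1, (p.2 : ℤ) - 1) ∈ C ∨
        (N - 3 - ((p.1 : ℤ) - 1), N - 3 - ((p.2 : ℤ) - 1)) ∈ C' := by
  classical
  obtain ⟨D, hD⟩ : ∃ D : Finset (ℤ × ℤ), D =
    (Finset.Ico 0 (N - 2) ×ˢ Finset.Ico 0 (N - 2)).filter (DD N c H C H' C') := ⟨_, rfl⟩
  have hmem : ∀ p, p ∈ D ↔ DD N c H C H' C' p := by
    intro p
    rw [hD, Finset.mem_filter, Finset.mem_product, Finset.mem_Ico, Finset.mem_Ico]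
    constructor
    · exact fun h => h.2
    · intro h
      have := dd_range hN hc hc' h1 h2 h
      exact ⟨⟨⟨this.1, this.2.1⟩, this.2.2.1, this.2.2.2⟩, h⟩
  have hpair : ∀ p ∈ D, ∀ q ∈ D, p ≠ q → RR p q := fun p hp q hq hne =>
    dd_pair hN hc hc' h1 h2 p1 p2 hr hd ((hmem p).1 hp) ((hmem q).1 hq) hne
  have hrange : ∀ p ∈ D, 0 ≤ p.1 ∧ p.1 < N - 2 ∧ 0 ≤ p.2 ∧ p.2 < N - 2 := fun p hp =>
    dd_range hN hc hc' h1 h2 ((hmem p).1 hp)
  have hcard : D.card = (N - 2).toNat := by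
    have himg : D.image Prod.fst = Finset.Ico 0 (N - 2) := by
      ext x
      rw [Finset.mem_image, Finset.mem_Ico]
      constructor
      · rintro ⟨p, hp, rfl⟩
        have := hrange p hp
        exact ⟨this.1, this.2.1⟩
      · rintro ⟨h0, hx⟩
        obtain ⟨p, hp, hp2⟩ := dd_row hN hc hc' h1 h2 h0 hx
        exact ⟨p, (hmem p).2 hp, hp2⟩
    have hinj : Set.InjOn Prod.fst (D : Set (ℤ × ℤ)) := by
      intro p hp q hq hpq
      by_contra hne
      exact (hpair p hp q hq hne).1 hpq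
    rw [← Finset.card_image_of_injOn hinj, himg, Int.card_Ico]
    congr 1
    ring
  obtain ⟨f, hf⟩ : ∃ f : ℤ × ℤ → ℕ × ℕ, f = fun p => ((p.1 + 1).toNat, (p.2 + 1).toNat) := ⟨_, rfl⟩
  have hf1 : ∀ p ∈ D, ((f p).1 : ℤ) = p.1 + 1 ∧ ((f p).2 : ℤ) = p.2 + 1 := by
    intro p hp
    have := hrange p hp
    rw [hf]
    simp only
    omega
  have hfinj : Set.InjOn f (D : Set (ℤ × ℤ)) := by
    intro p hp q hq hpq
    by_contra hne
    have h3 := (hpair p hp q hq hne).1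
    have h4 := (hf1 p hp).1
    have h5 := (hf1 q hq).1
    rw [hpq] at h4
    apply h3
    linarith
  refine ⟨D.image f, ⟨?_, ?_, ?_⟩, ?_⟩
  · rw [Finset.card_image_of_injOn hfinj, hcard]
  · intro p hp
    obtain ⟨q, hq, rfl⟩ := Finset.mem_image.1 hp
    have h3 := hf1 q hq
    have h4 := hrange q hq
    omega
  · intro p hp p' hp' hne
    obtain ⟨q, hq, rfl⟩ := Finset.mem_image.1 hp
    obtain ⟨q', hq', rfl⟩ := Finset.mem_image.1 hp'
    have h3 := hf1 q hq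
    have h4 := hf1 q' hq'
    have h5 := hpair q hq q' hq' (fun h => hne (by rw [h]))
    unfold RR at h5
    omega
  · intro p hp
    obtain ⟨q, hq, rfl⟩ := Finset.mem_image.1 hp
    have h3 := hf1 q hq
    have e1 : ((f q).1 : ℤ) - 1 = q.1 := by linarith [h3.1]
    have e2 : ((f q).2 : ℤ) - 1 = q.2 := by linarith [h3.2]
    rw [e1, e2]
    rcases (hmem q).1 hq with ⟨a, -, -⟩ | a | a
    · exact Or.inl a
    · exact Or.inr (Or.inl a)
    · exact Or.inr (Or.inr a)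

end Pool.Agent.H29.Q
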