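import Pool.Agent.H29.Q.Defs

/-!
# Module CRT [H29 Q]: residues

`qq_*`: the five moduli are positive, pairwise coprime and coprime to 2 and to every divisor of 216
(differences 2, 4, 6, 10, 12, 16 have only the prime factors 2, 3, 5; the moduli are units mod 60).
`crt`: one parameter `m` in any interval of length `2 q_0 .. q_4` with given parity and
`q_i ∣ A_i m + B_i` (iterate: if `gcd (A M) q = 1` then `A (m + M s) + B ≡ 0` mod `q` is solvable in
`s`; finally shift by a multiple of `2 q_0 .. q_4`).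
-/

set_option autoImplicit false

namespace Pool.Agent.H29.Q

theorem qq_pos (k : ℤ) (hk : 1 ≤ k) (i : Fin 5) : 0 < qq k i := by
  fin_cases i <;> simp only [qq] <;> simp <;> omega

private theorem qq_60 (k : ℤ) (i : Fin 5) : IsCoprime (qq k i) 60 := by
  fin_cases i
  · exact ⟨1, -k, by simp [qq]; ring⟩
  · exact ⟨43, -5 - 43 * k, by simp [qq]; ring⟩
  · exact ⟨11, -2 - 11 * k, by simp [qq]; ring⟩
  · exact ⟨37, -8 - 37 * k, by simp [qq]; ring⟩
  · exact ⟨53, -15 - 53 * k, by simp [qq]; ring⟩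

private theorem qq_diff (k : ℤ) (i j : Fin 5) : qq k j - qq k i = qq 0 j - qq 0 i := by
  fin_cases i <;> fin_cases j <;> simp [qq]

private theorem qq_dvd : ∀ i j : Fin 5, i ≠ j → qq 0 j - qq 0 i ∣ 3600 := by
  decide

theorem qq_coprime (k : ℤ) (hk : 1 ≤ k) (i j : Fin 5) (hij : i ≠ j) :
    IsCoprime (qq k i) (qq k j) := by
  have h1 : IsCoprime (qq k i) (60 ^ 2) := (qq_60 k i).pow_right
  have h2 : qq k j - qq k i ∣ 60 ^ 2 := by
    rw [qq_diff]
    exact qq_dvd i j hij
  obtain ⟨a, b, h⟩ := h1.of_isCoprime_of_dvd_right h2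
  exact ⟨a - b, b, by linarith⟩

theorem qq_two (k : ℤ) (i : Fin 5) : IsCoprime (qq k i) 2 :=
  (qq_60 k i).of_isCoprime_of_dvd_right ⟨30, by norm_num⟩

theorem qq_216 (k : ℤ) (i : Fin 5) (a : ℤ) (ha : a ∣ 216) : IsCoprime a (qq k i) := by
  have h1 : IsCoprime (qq k i) (60 ^ 3) := (qq_60 k i).pow_right
  exact (h1.of_isCoprime_of_dvd_right (ha.trans ⟨1000, by norm_num⟩)).symm

theorem crt (q A B : Fin 5 → ℤ) (hq : ∀ i, 0 < q i) (h2 : ∀ i, IsCoprime (q i) 2)
    (hp : ∀ i j, i ≠ j → IsCoprime (q i) (q j)) (hA : ∀ i, IsCoprime (A i) (q i)) (par lo : ℤ) :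
    ∃ m, lo ≤ m ∧ m < lo + 2 * ∏ i, q i ∧ (m - par) % 2 = 0 ∧ ∀ i, q i ∣ A i * m + B i := by
  have key : ∀ s : Finset (Fin 5), ∃ m : ℤ, (m - par) % 2 = 0 ∧ ∀ i ∈ s, q i ∣ A i * m + B i := by
    intro s
    induction s using Finset.induction_on with
    | empty => exact ⟨par, by simp, fun i hi => absurd hi (Finset.notMem_empty i)⟩
    | insert j s hj ih =>
      obtain ⟨m, hm, hs⟩ := ih
      have h3 : IsCoprime (A j * (2 * ∏ i ∈ s, q i)) (q j) := by
        refine (hA j).mul_left ((h2 j).symm.mul_left (IsCoprime.prod_left fun i hi => ?_))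
        exact hp i j (fun h => hj (h ▸ hi))
      obtain ⟨u, v, huv⟩ := h3
      refine ⟨m + (2 * ∏ i ∈ s, q i) * (-(u * (A j * m + B j))), ?_, fun i hi => ?_⟩
      · have h4 : m + (2 * ∏ i ∈ s, q i) * (-(u * (A j * m + B j))) - par =
            (m - par) + 2 * ((∏ i ∈ s, q i) * (-(u * (A j * m + B j)))) := by ring
        rw [h4, Int.add_mul_emod_self_left]
        exact hm
      · rcases Finset.mem_insert.1 hi with rfl | hi
        · refine ⟨(A i * m + B i) * v, ?_⟩
          linear_combination (-(A i * m + B i)) * huv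
        · have h4 : A i * (m + (2 * ∏ i ∈ s, q i) * (-(u * (A j * m + B j)))) + B i =
              (A i * m + B i) + (∏ i ∈ s, q i) * (A i * 2 * (-(u * (A j * m + B j)))) := by ring
          rw [h4]
          exact dvd_add (hs i hi) ((Finset.dvd_prod_of_mem q hi).mul_right _)
  obtain ⟨m0, hm0, hd⟩ := key Finset.univ
  have hP : 0 < ∏ i, q i := Finset.prod_pos fun i _ => hq i
  have hP2 : 0 < 2 * ∏ i, q i := by linarith
  have h3 := Int.emod_nonneg (m0 - lo) hP2.ne'
  have h4 := Int.emod_lt_of_pos (m0 - lo) hP2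
  have h5 := Int.emod_add_mul_ediv (m0 - lo) (2 * ∏ i, q i)
  refine ⟨lo + (m0 - lo) % (2 * ∏ i, q i), by linarith, by linarith, ?_, fun i => ?_⟩
  · have h6 : lo + (m0 - lo) % (2 * ∏ i, q i) - par =
        (m0 - par) + 2 * (-((∏ i, q i) * ((m0 - lo) / (2 * ∏ i, q i)))) := by
      linear_combination h5
    rw [h6, Int.add_mul_emod_self_left]
    exact hm0
  · have h6 : A i * (lo + (m0 - lo) % (2 * ∏ i, q i)) + B i =
        (A i * m0 + B i) + (∏ i, q i) * (A i * 2 * (-((m0 - lo) / (2 * ∏ i, q i)))) := by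
      linear_combination (A i) * h5
    rw [h6]
    exact dvd_add (hd i (Finset.mem_univ i))
      ((Finset.dvd_prod_of_mem q (Finset.mem_univ i)).mul_right _)

end Pool.Agent.H29.Q
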