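import Pool.Agent.H29.Q.Defs

/-!
# Families of switches: interface [H29 Q]
-/

set_option autoImplicit false

namespace Pool.Agent.H29.Q

/-- A family of switches with one integer parameter `m`. -/
structure Data where
  /-- removed queens (arguments `N c m`) -/
  H : ℤ → ℤ → ℤ → List (ℤ × ℤ)
  /-- added queens -/
  C : ℤ → ℤ → ℤ → List (ℤ × ℤ)
  /-- start of the window of `m` -/
  lo : ℤ → ℤ → ℤ
  /-- parity of `m` -/
  par : ℤ → ℤ → ℤ
  /-- coefficients of `m` in the classes of the added queens -/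
  A : Fin 5 → ℤ
  /-- constant terms -/
  B : ℤ → ℤ → Fin 5 → ℤ

/-- Size conditions. -/
structure Rng (N e c : ℤ) : Prop where
  hN : N % 6 = 5
  he : 10 ≤ e
  hN2 : 20000 * e ≤ N
  hc1 : 1000 * e ≤ c
  hc2 : c + 1000 * e ≤ N

/-- The parameter is in its window and has the right parity. -/
structure Win (P : Data) (N e c m : ℤ) : Prop where
  h1 : P.lo N c ≤ m
  h2 : m ≤ P.lo N c + e
  h3 : (m - P.par N c) % 2 = 0

/-- Correctness of a family on a domain of classes. -/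
structure Fam (P : Data) (dom : ℤ → ℤ → Prop) : Prop where
  sw : ∀ N e c m, Rng N e c → dom N c → Win P N e c m →
    Sw N c (uu N c) (c - 2) (P.H N c m) (P.C N c m)
  lenC : ∀ N c m, (P.C N c m).length ≤ 5
  lenH : ∀ N c m, (P.H N c m).length ≤ 4
  hA : ∀ i, P.A i ∣ 216
  dvd : ∀ N c m, (m - P.par N c) % 2 = 0 → N % 6 = 5 → dom N c → ∀ (i : Fin 5) z,
    (P.C N c m)[(i : ℕ)]? = some z → z.2 - 2 * z.1 = P.A i * m + P.B N c i
  mult : ∀ N e c m c' m', Rng N e c → dom N c → Win P N e c m →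
    Rng N e c' → dom N c' → Win P N e c' m' → ∀ (i : Fin 5) z,
    (P.C N c m)[(i : ℕ)]? = some z → (P.C N c' m')[(i : ℕ)]? = some z →
      |c - c'| ≤ 100 ∧ (c = c' → m = m')
  injH : ∀ N e c m m', Rng N e c → dom N c → Win P N e c m → Win P N e c m' →
    ∀ (i : Fin 4) p p', (P.H N c m)[(i : ℕ)]? = some p → (P.H N c m')[(i : ℕ)]? = some p' →
      p.1 = p'.1 → m = m'
  injD : ∀ N e c m m', Rng N e c → dom N c → Win P N e c m → Win P N e c m' →
    ∀ (i : Fin 5) z z', (P.C N c m)[(i : ℕ)]? = some z → (P.C N c m')[(i : ℕ)]? = some z' →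
      (z.1 - z.2 = z'.1 - z'.2 ∨ z.1 + z.2 = z'.1 + z'.2) → m = m'
  coin : ∀ N e c m m', Rng N e c → dom N c → Win P N e c m → Win P N e c m' →
    ∀ (i j : Fin 5), i < j → ∀ z w z' w', (P.C N c m)[(i : ℕ)]? = some z →
      (P.C N c m)[(j : ℕ)]? = some w → (P.C N c m')[(i : ℕ)]? = some z' →
      (P.C N c m')[(j : ℕ)]? = some w' →
      ((z.1 - z.2 = w.1 - w.2 ∧ z'.1 - z'.2 = w'.1 - w'.2) ∨
        (z.1 + z.2 = w.1 + w.2 ∧ z'.1 + z'.2 = w'.1 + w'.2)) → m = m'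

theorem Bs_unique {N c x y y' : ℤ} (h : Bs N c x y) (h' : Bs N c x y') : y = y' := by
  obtain ⟨h0, h1, h2, h3, h4⟩ := h
  obtain ⟨_, _, h5, h6, h7⟩ := h'
  omega

end Pool.Agent.H29.Q
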