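import Mathlib

/-!
# Packing n-queens patterns: definitions [H29 Q]

Squares of the `n x n` board are pairs `(i, j)` with `1 ≤ i, j ≤ n`. In the proof `N = n + 2`,
coordinates are integers from `0` to `N - 3`, and class `c` is the set of squares with
`y ≡ 2 x + c` mod `N`.
-/

set_option autoImplicit false

namespace Pool.Agent.H29.Q

/-- A pattern of `n` nonattacking queens on the `n x n` board with squares `(i, j)`,
`1 ≤ i, j ≤ n`: `n` squares, no two in the same row, column or diagonal (no wrap-around). -/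
def IsPattern (n : ℕ) (P : Finset (ℕ × ℕ)) : Prop :=
  P.card = n ∧ (∀ p ∈ P, 1 ≤ p.1 ∧ p.1 ≤ n ∧ 1 ≤ p.2 ∧ p.2 ≤ n) ∧
    ∀ p ∈ P, ∀ q ∈ P, p ≠ q →
      p.1 ≠ q.1 ∧ p.2 ≠ q.2 ∧ (p.1 : ℤ) - p.2 ≠ (q.1 : ℤ) - q.2 ∧
        (p.1 : ℤ) + p.2 ≠ (q.1 : ℤ) + q.2

/-- A family of pairwise disjoint patterns of `n` nonattacking queens. -/
def IsPacking (n : ℕ) (F : Finset (Finset (ℕ × ℕ))) : Prop :=
  (∀ P ∈ F, IsPattern n P) ∧ ∀ P ∈ F, ∀ P' ∈ F, P ≠ P' → Disjoint P P'

/-- `Q n`: the largest number of pairwise disjoint patterns of `n` nonattacking queens. -/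
noncomputable def Q (n : ℕ) : ℕ := sSup {k | ∃ F, IsPacking n F ∧ F.card = k}

/-- The squares of class `c` inside the board (coordinates from `0`). -/
def Bs (N c x y : ℤ) : Prop :=
  0 ≤ x ∧ x < N - 2 ∧ 0 ≤ y ∧ y < N - 2 ∧
    (y = 2 * x + c ∨ y = 2 * x + c - N ∨ y = 2 * x + c - 2 * N)

/-- The two squares lie on different diagonals of both directions. -/
def Dg (p q : ℤ × ℤ) : Prop := p.1 - p.2 ≠ q.1 - q.2 ∧ p.1 + p.2 ≠ q.1 + q.2

/-- The lower empty row of class `c`. -/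
def uu (N c : ℤ) : ℤ := (N - c - 1 - c % 2) / 2

/-- A switch for class `c`: the queens `H` of class `c` are removed and the queens `C` are added;
afterwards row `u` and column `v` are covered in addition. -/
structure Sw (N c u v : ℤ) (H C : List (ℤ × ℤ)) : Prop where
  base : ∀ p ∈ H, Bs N c p.1 p.2
  rows : C.map Prod.fst = u :: H.map Prod.fst
  cols : (C.map Prod.snd).Perm (v :: H.map Prod.snd)
  nodup : (H.map Prod.fst).Nodup
  free : ∀ z ∈ C, ∀ x y, Bs N c x y → (x, y) ∉ H → x - y ≠ z.1 - z.2 ∧ x + y ≠ z.1 + z.2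

/-- The five moduli. -/
def qq (k : ℤ) : Fin 5 → ℤ :=
  ![60 * k + 1, 60 * k + 7, 60 * k + 11, 60 * k + 13, 60 * k + 17]

end Pool.Agent.H29.Q
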