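import Pool.Agent.H29.Q.Defs

/-!
# Module FIN [H29 Q]: asymptotics and elementary facts on `Q`

`fin`: choose `k = ⌊n^(1/7) / c₀⌋` suitably (`k ≥ 1` natural with `D k^6 ≤ n`, `k^7 ≤ n < (k+1)^7`
for `n` large); then `k^6 + n / k ≤ C n^(6/7)`; for small `n` take `C` large.
`le_Q`: a packing is a set of subsets of the board, so the set in the definition of `Q` is bounded.
`Q_le`: every pattern has exactly one queen in row 1 (`n ≥ 1`): `n` queens in `n` different rows.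
-/

set_option autoImplicit false

namespace Pool.Agent.H29.Q

private theorem bdd (n : ℕ) : BddAbove {k | ∃ F, IsPacking n F ∧ F.card = k} := by
  refine ⟨(Finset.powerset (Finset.Icc 1 n ×ˢ Finset.Icc 1 n)).card, ?_⟩
  rintro k ⟨F, hF, rfl⟩
  apply Finset.card_le_card
  intro P hP
  rw [Finset.mem_powerset]
  intro p hp
  obtain ⟨h1, h2, h3, h4⟩ := (hF.1 P hP).2.1 p hp
  rw [Finset.mem_product, Finset.mem_Icc, Finset.mem_Icc]
  exact ⟨⟨h1, h2⟩, h3, h4⟩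

theorem le_Q (n : ℕ) (F : Finset (Finset (ℕ × ℕ))) (hF : IsPacking n F) : F.card ≤ Q n :=
  le_csSup (bdd n) ⟨F, hF, rfl⟩

private theorem row_one (n : ℕ) (hn : 1 ≤ n) (P : Finset (ℕ × ℕ)) (hP : IsPattern n P) :
    ∃ q, (1, q) ∈ P ∧ 1 ≤ q ∧ q ≤ n := by
  have hinj : Set.InjOn Prod.fst (P : Set (ℕ × ℕ)) := by
    intro p hp q hq hpq
    by_contra hne
    exact (hP.2.2 p hp q hq hne).1 hpq
  have hc : (P.image Prod.fst).card = n := by
    rw [Finset.card_image_of_injOn hinj, hP.1]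
  have hsub : P.image Prod.fst ⊆ Finset.Icc 1 n := by
    intro i hi
    rw [Finset.mem_image] at hi
    obtain ⟨p, hp, rfl⟩ := hi
    obtain ⟨h1, h2, _, _⟩ := hP.2.1 p hp
    exact Finset.mem_Icc.2 ⟨h1, h2⟩
  have heq : P.image Prod.fst = Finset.Icc 1 n := by
    apply Finset.eq_of_subset_of_card_le hsub
    rw [hc]
    simp
  have h1 : 1 ∈ P.image Prod.fst := by
    rw [heq]
    exact Finset.mem_Icc.2 ⟨le_refl 1, hn⟩
  rw [Finset.mem_image] at h1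
  obtain ⟨⟨a, b⟩, hp, hab⟩ := h1
  have ha : a = 1 := hab
  subst ha
  obtain ⟨_, _, h3, h4⟩ := hP.2.1 _ hp
  exact ⟨b, hp, h3, h4⟩

theorem Q_le (n : ℕ) (hn : 1 ≤ n) : Q n ≤ n := by
  apply csSup_le
  · refine ⟨0, ∅, ⟨?_, ?_⟩, rfl⟩
    · intro P hP
      exact absurd hP (Finset.notMem_empty P)
    · intro P hP
      exact absurd hP (Finset.notMem_empty P)
  · rintro k ⟨F, hF, rfl⟩
    have hex : ∀ P ∈ F, ∃ q, (1, q) ∈ P ∧ 1 ≤ q ∧ q ≤ n :=
      fun P hP => row_one n hn P (hF.1 P hP)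
    choose! g hg using hex
    have hmap : ∀ P ∈ F, g P ∈ Finset.Icc 1 n := by
      intro P hP
      exact Finset.mem_Icc.2 (hg P hP).2
    have hinj : Set.InjOn g (F : Set (Finset (ℕ × ℕ))) := by
      intro P hP P' hP' h
      by_contra hne
      have hd := hF.2 P hP P' hP' hne
      have h1 : (1, g P) ∈ P := (hg P hP).1
      have h2 : (1, g P) ∈ P' := by
        rw [h]
        exact (hg P' hP').1
      exact Finset.disjoint_left.1 hd h1 h2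
    have := Finset.card_le_card_of_injOn g hmap hinj
    rwa [Nat.card_Icc, Nat.add_sub_cancel] at this

theorem fin (f : ℕ → ℕ) (C₁ D : ℝ)
    (h : ∀ n k : ℕ, n % 6 = 3 → 1 ≤ k → D * (k : ℝ) ^ 6 ≤ n →
      (n : ℝ) - C₁ * ((k : ℝ) ^ 6 + n / k) ≤ f n) :
    ∃ C : ℝ, ∀ n : ℕ, n % 6 = 3 → (n : ℝ) - C * (n : ℝ) ^ ((6 : ℝ) / 7) ≤ f n := by
  refine ⟨3 * |C₁| + max 1 D, ?_⟩
  intro n hn
  have hn3 : 3 ≤ n := by omega
  have hn0 : (0 : ℝ) ≤ n := Nat.cast_nonneg n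
  have hn1 : (1 : ℝ) ≤ n := by
    have : (3 : ℝ) ≤ n := by exact_mod_cast hn3
    linarith
  obtain ⟨x, hx⟩ : ∃ x : ℝ, x = (n : ℝ) ^ ((1 : ℝ) / 7) := ⟨_, rfl⟩
  have hx1 : 1 ≤ x := by
    rw [hx]
    exact Real.one_le_rpow hn1 (by norm_num)
  have hx0 : 0 ≤ x := by linarith
  have hx7 : x ^ 7 = n := by
    rw [hx, ← Real.rpow_natCast, ← Real.rpow_mul hn0]
    norm_num
  have hx6 : (n : ℝ) ^ ((6 : ℝ) / 7) = x ^ 6 := by
    rw [hx, ← Real.rpow_natCast, ← Real.rpow_mul hn0]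
    norm_num
  rw [hx6]
  have hM1 : (1 : ℝ) ≤ max 1 D := le_max_left _ _
  have hMD : D ≤ max 1 D := le_max_right _ _
  have hf0 : (0 : ℝ) ≤ f n := Nat.cast_nonneg _
  have hx6' : 0 ≤ x ^ 6 := pow_nonneg hx0 6
  have hC0 : 0 ≤ |C₁| := abs_nonneg _
  have hxx : x ^ 7 = x * x ^ 6 := by ring
  rcases le_or_gt (max 1 D) x with hb | hs
  · obtain ⟨k, hk⟩ : ∃ k : ℕ, k = ⌊x⌋₊ := ⟨_, rfl⟩
    have hk1 : 1 ≤ k := by
      rw [hk]
      exact (Nat.one_le_floor_iff x).2 hx1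
    have hkx : (k : ℝ) ≤ x := by
      rw [hk]
      exact Nat.floor_le hx0
    have hxk : x < k + 1 := by
      rw [hk]
      exact Nat.lt_floor_add_one x
    have hk1' : (1 : ℝ) ≤ k := by exact_mod_cast hk1
    have hk0 : (0 : ℝ) < k := by linarith
    have hk6 : (k : ℝ) ^ 6 ≤ x ^ 6 := pow_le_pow_left₀ hk0.le hkx 6
    have hk60 : 0 ≤ (k : ℝ) ^ 6 := pow_nonneg hk0.le 6
    have hD : D * (k : ℝ) ^ 6 ≤ n := by
      have h1 : D * (k : ℝ) ^ 6 ≤ x * (k : ℝ) ^ 6 :=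
        mul_le_mul_of_nonneg_right (by linarith) hk60
      have h2 : x * (k : ℝ) ^ 6 ≤ x * x ^ 6 := mul_le_mul_of_nonneg_left hk6 hx0
      rw [← hx7, hxx]
      linarith
    have h0 := h n k hn hk1 hD
    have hdiv : (n : ℝ) / k ≤ 2 * x ^ 6 := by
      rw [div_le_iff₀ hk0, ← hx7, hxx]
      have h1 : x ≤ 2 * k := by linarith
      have h2 : x * x ^ 6 ≤ (2 * k) * x ^ 6 := mul_le_mul_of_nonneg_right h1 hx6'
      linarith
    have hdiv0 : 0 ≤ (n : ℝ) / k := div_nonneg hn0 hk0.le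
    have h3 : C₁ * ((k : ℝ) ^ 6 + n / k) ≤ |C₁| * (3 * x ^ 6) := by
      have h4 : C₁ * ((k : ℝ) ^ 6 + n / k) ≤ |C₁| * ((k : ℝ) ^ 6 + n / k) :=
        mul_le_mul_of_nonneg_right (le_abs_self _) (by linarith)
      have h5 : |C₁| * ((k : ℝ) ^ 6 + n / k) ≤ |C₁| * (3 * x ^ 6) :=
        mul_le_mul_of_nonneg_left (by linarith) hC0
      linarith
    have h6 : 0 ≤ max 1 D * x ^ 6 := mul_nonneg (by linarith) hx6'
    have h7 : (3 * |C₁| + max 1 D) * x ^ 6 = |C₁| * (3 * x ^ 6) + max 1 D * x ^ 6 := by ring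
    rw [h7]
    linarith
  · have h1 : (n : ℝ) ≤ max 1 D * x ^ 6 := by
      rw [← hx7, hxx]
      exact mul_le_mul_of_nonneg_right hs.le hx6'
    have h2 : 0 ≤ |C₁| * x ^ 6 := mul_nonneg hC0 hx6'
    have h7 : (3 * |C₁| + max 1 D) * x ^ 6 = 3 * (|C₁| * x ^ 6) + max 1 D * x ^ 6 := by ring
    rw [h7]
    linarith

end Pool.Agent.H29.Q
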