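import Pool.Agent.H29.Q.Defs

/-!
# Module RESV [H29 Q]: the reservoir is small

For each of the 15 pairs `(i, j)` the number of `c ∈ [0, N - 1]` with `q_i ∣ c - j N` is at most
`N / q_i + 1 ≤ N / (60 k) + 1`.
-/

set_option autoImplicit false

namespace Pool.Agent.H29.Q

private theorem count_one (N q r : ℤ) (hq : 0 < q) (hN : 0 ≤ N) :
    q * (((Finset.Icc 0 (N - 1)).filter (fun c => q ∣ c - r)).card : ℤ) ≤ N + q := by
  have h1 : (Finset.Icc 0 (N - 1)).filter (fun c => q ∣ c - r) =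
      (Finset.Ico 0 N).filter (fun c => c ≡ r [ZMOD q]) := by
    ext c
    rw [Finset.mem_filter, Finset.mem_filter, Finset.mem_Icc, Finset.mem_Ico,
      Int.modEq_comm, Int.modEq_iff_dvd]
    constructor
    · rintro ⟨⟨a1, a2⟩, a3⟩
      exact ⟨⟨a1, by omega⟩, a3⟩
    · rintro ⟨⟨a1, a2⟩, a3⟩
      exact ⟨⟨a1, by omega⟩, a3⟩
  rw [h1, Int.Ico_filter_modEq_card 0 N hq r]
  have hq' : (0 : ℚ) < q := by exact_mod_cast hq
  have h2 : (⌈((N : ℤ) - r : ℚ) / (q : ℚ)⌉ : ℚ) < (N - r) / q + 1 := Int.ceil_lt_add_one _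
  have h3 : (((0 : ℤ) : ℚ) - r) / q ≤ ⌈(((0 : ℤ) : ℚ) - r) / (q : ℚ)⌉ := Int.le_ceil _
  rcases le_total (⌈((N : ℤ) - r : ℚ) / (q : ℚ)⌉ - ⌈(((0 : ℤ) : ℚ) - r) / (q : ℚ)⌉) 0 with h4 | h4
  · rw [max_eq_right h4]
    omega
  · rw [max_eq_left h4]
    have h5 : ((⌈((N : ℤ) - r : ℚ) / (q : ℚ)⌉ - ⌈(((0 : ℤ) : ℚ) - r) / (q : ℚ)⌉ : ℤ) : ℚ) <
        N / q + 1 := by
      push_cast at h3 ⊢
      have : ((N : ℚ) - r) / q - (0 - r) / q = N / q := by field_simp; ring
      linarith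
    have h6 : ((q * (⌈((N : ℤ) - r : ℚ) / (q : ℚ)⌉ - ⌈(((0 : ℤ) : ℚ) - r) / (q : ℚ)⌉) : ℤ) : ℚ) ≤
        ((N + q : ℤ) : ℚ) := by
      rw [Int.cast_mul]
      have h7 := mul_le_mul_of_nonneg_left h5.le hq'.le
      have h8 : (q : ℚ) * (N / q + 1) = N + q := by field_simp
      rw [h8] at h7
      push_cast at h7 ⊢
      exact h7
    exact_mod_cast h6

private theorem qq_ge (k : ℤ) (i : Fin 5) : 60 * k ≤ qq k i := by
  fin_cases i <;> simp [qq]

private theorem count_k (N k q r : ℤ) (hk : 1 ≤ k) (hN : 0 ≤ N) (hq : 60 * k ≤ q) :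
    60 * k * (((Finset.Icc 0 (N - 1)).filter (fun c => q ∣ c - r)).card : ℤ) ≤ N + 60 * k := by
  have h1 := count_one N q r (by omega) hN
  set m : ℤ := (((Finset.Icc 0 (N - 1)).filter (fun c => q ∣ c - r)).card : ℤ) with hm
  have hm0 : 0 ≤ m := by rw [hm]; exact Int.natCast_nonneg _
  rcases eq_or_lt_of_le hm0 with h0 | h0
  · rw [← h0]; nlinarith
  · have h2 : 60 * k * (m - 1) ≤ q * (m - 1) := mul_le_mul_of_nonneg_right hq (by omega)
    nlinarith

theorem resv_card (N k : ℤ) (hk : 1 ≤ k) (hN : 0 ≤ N) :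
    4 * k * (((Finset.Icc 0 (N - 1)).filter (fun c =>
      ∃ i : Fin 5, qq k i ∣ c ∨ qq k i ∣ c - N ∨ qq k i ∣ c - 2 * N)).card : ℤ) ≤ N + 60 * k := by
  classical
  have hsub : (Finset.Icc 0 (N - 1)).filter (fun c =>
      ∃ i : Fin 5, qq k i ∣ c ∨ qq k i ∣ c - N ∨ qq k i ∣ c - 2 * N) ⊆
      Finset.univ.biUnion (fun p : Fin 5 × Fin 3 =>
        (Finset.Icc 0 (N - 1)).filter (fun c => qq k p.1 ∣ c - (p.2 : ℤ) * N)) := by
    intro c hc
    rw [Finset.mem_filter] at hc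
    obtain ⟨hc1, i, hi⟩ := hc
    rw [Finset.mem_biUnion]
    rcases hi with hi | hi | hi
    · refine ⟨(i, 0), Finset.mem_univ _, ?_⟩
      rw [Finset.mem_filter]
      exact ⟨hc1, by simpa using hi⟩
    · refine ⟨(i, 1), Finset.mem_univ _, ?_⟩
      rw [Finset.mem_filter]
      exact ⟨hc1, by simpa using hi⟩
    · refine ⟨(i, 2), Finset.mem_univ _, ?_⟩
      rw [Finset.mem_filter]
      exact ⟨hc1, by simpa using hi⟩
  have h1 := (Finset.card_le_card hsub).trans Finset.card_biUnion_le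
  have h2 : (((Finset.Icc 0 (N - 1)).filter (fun c =>
      ∃ i : Fin 5, qq k i ∣ c ∨ qq k i ∣ c - N ∨ qq k i ∣ c - 2 * N)).card : ℤ) ≤
      ∑ p : Fin 5 × Fin 3, (((Finset.Icc 0 (N - 1)).filter
        (fun c => qq k p.1 ∣ c - (p.2 : ℤ) * N)).card : ℤ) := by
    exact_mod_cast h1
  have h3 : 60 * k * ∑ p : Fin 5 × Fin 3, (((Finset.Icc 0 (N - 1)).filter
        (fun c => qq k p.1 ∣ c - (p.2 : ℤ) * N)).card : ℤ) ≤ 15 * (N + 60 * k) := by
    rw [Finset.mul_sum]
    have h4 : ∑ p : Fin 5 × Fin 3, 60 * k * (((Finset.Icc 0 (N - 1)).filter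
        (fun c => qq k p.1 ∣ c - (p.2 : ℤ) * N)).card : ℤ) ≤
        ∑ _p : Fin 5 × Fin 3, (N + 60 * k) :=
      Finset.sum_le_sum fun p _ => count_k N k _ _ hk hN (qq_ge k p.1)
    refine h4.trans (le_of_eq ?_)
    rw [Finset.sum_const, Finset.card_univ]
    simp
  have h5 := mul_le_mul_of_nonneg_left h2 (show (0 : ℤ) ≤ 60 * k by omega)
  linarith

/-- Two finite sets of pairs: close first components, the second determined by the first. -/
theorem card_le_of_close (S : Finset (ℤ × ℤ)) (b : ℕ)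
    (h : ∀ p ∈ S, ∀ q ∈ S, |p.1 - q.1| ≤ b ∧ (p.1 = q.1 → p.2 = q.2)) : S.card ≤ b + 1 := by
  classical
  rcases S.eq_empty_or_nonempty with rfl | hne
  · simp
  · obtain ⟨p0, hp0, hmin⟩ := S.exists_min_image (fun p => p.1) hne
    have h1 : (S.image (fun p => p.1)).card = S.card := by
      apply Finset.card_image_of_injOn
      intro p hp q hq hpq
      exact Prod.ext hpq ((h p hp q hq).2 hpq)
    have h2 : S.image (fun p => p.1) ⊆ Finset.Icc p0.1 (p0.1 + b) := by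
      intro x hx
      obtain ⟨p, hp, rfl⟩ := Finset.mem_image.1 hx
      have h3 := (h p hp p0 hp0).1
      rw [abs_le] at h3
      rw [Finset.mem_Icc]
      exact ⟨hmin p hp, by linarith [h3.2]⟩
    have h4 := Finset.card_le_card h2
    rw [h1, Int.card_Icc] at h4
    omega

/-- An arithmetic progression without at most 20 (here: `s`) exceptional values. -/
theorem card_prog (lo hi m₀ d : ℤ) (T s : ℕ) (hd : 0 < d) (h0 : lo ≤ m₀)
    (h1 : m₀ + d * (T + s) ≤ hi) (good : ℤ → Prop) [DecidablePred good]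
    (E : Fin s → ℤ → Prop)
    (hE : ∀ i m m', lo ≤ m → m ≤ hi → lo ≤ m' → m' ≤ hi → d ∣ m - m₀ → d ∣ m' - m₀ →
      E i m → E i m' → m = m')
    (hg : ∀ m, lo ≤ m → m ≤ hi → d ∣ m - m₀ → (∀ i, ¬ E i m) → good m) :
    T ≤ ((Finset.Icc lo hi).filter good).card := by
  classical
  set P : Finset ℤ := (Finset.range (T + s)).image (fun i : ℕ => m₀ + d * i) with hP
  have hPc : P.card = T + s := by
    rw [hP, Finset.card_image_of_injective, Finset.card_range]
    intro a b hab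
    have h2 : d * (a : ℤ) = d * b := by
      have : m₀ + d * (a : ℤ) = m₀ + d * b := hab
      linarith
    exact_mod_cast mul_left_cancel₀ hd.ne' h2
  have hPm : ∀ m ∈ P, lo ≤ m ∧ m ≤ hi ∧ d ∣ m - m₀ := by
    intro m hm
    obtain ⟨i, hi', rfl⟩ := Finset.mem_image.1 hm
    rw [Finset.mem_range] at hi'
    have h2 : (i : ℤ) ≤ T + s := by exact_mod_cast hi'.le
    have h3 : d * (i : ℤ) ≤ d * (T + s) := mul_le_mul_of_nonneg_left h2 hd.le
    have h4 : 0 ≤ d * (i : ℤ) := mul_nonneg hd.le (Int.natCast_nonneg _)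
    exact ⟨by linarith, by linarith, ⟨i, by ring⟩⟩
  set B := P.filter (fun m => ∃ i, E i m) with hB
  have hBc : B.card ≤ s := by
    have hch : ∀ m : ℤ, ∃ i : Option (Fin s), m ∈ B → ∃ j, i = some j ∧ E j m := by
      intro m
      by_cases hm : m ∈ B
      · obtain ⟨i, hi'⟩ := (Finset.mem_filter.1 hm).2
        exact ⟨some i, fun _ => ⟨i, rfl, hi'⟩⟩
      · exact ⟨none, fun h => absurd h hm⟩
    choose f hf using hch
    have h2 : B.card = (B.image f).card := by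
      symm
      apply Finset.card_image_of_injOn
      intro m hm m' hm' hmm
      obtain ⟨j, hj, hjE⟩ := hf m hm
      obtain ⟨j', hj', hjE'⟩ := hf m' hm'
      have h3 : j = j' := Option.some.inj (by rw [← hj, ← hj', hmm])
      subst h3
      obtain ⟨a1, a2, a3⟩ := hPm m (Finset.mem_filter.1 hm).1
      obtain ⟨b1, b2, b3⟩ := hPm m' (Finset.mem_filter.1 hm').1
      exact hE j m m' a1 a2 b1 b2 a3 b3 hjE hjE'
    have h3 : B.image f ⊆ Finset.univ.image (fun j : Fin s => some j) := by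
      intro x hx
      obtain ⟨m, hm, rfl⟩ := Finset.mem_image.1 hx
      obtain ⟨j, hj, _⟩ := hf m hm
      exact Finset.mem_image.2 ⟨j, Finset.mem_univ _, hj.symm⟩
    have h4 := (Finset.card_le_card h3).trans Finset.card_image_le
    rw [Finset.card_univ, Fintype.card_fin] at h4
    omega
  have hsub : P \ B ⊆ (Finset.Icc lo hi).filter good := by
    intro m hm
    rw [Finset.mem_sdiff] at hm
    obtain ⟨a1, a2, a3⟩ := hPm m hm.1
    rw [Finset.mem_filter, Finset.mem_Icc]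
    refine ⟨⟨a1, a2⟩, hg m a1 a2 a3 ?_⟩
    intro i hi'
    exact hm.2 (Finset.mem_filter.2 ⟨hm.1, i, hi'⟩)
  have h5 := Finset.card_le_card hsub
  have h6 := Finset.le_card_sdiff B P
  omega

end Pool.Agent.H29.Q
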