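import Pool.Agent.H29.Q.Data
import Pool.Agent.H29.Q.Crt
import Pool.Agent.H29.Q.Resv

/-!
# Admissible parameters [H29 Q]
-/

set_option autoImplicit false

namespace Pool.Agent.H29.Q

/-- `m` is admissible. -/
def Adm (P : Data) (N k c m : ℤ) : Prop := (m - P.par N c) % 2 = 0 ∧
    (∀ i, qq k i ∣ P.A i * m + P.B N c i) ∧ (P.C N c m).Pairwise Dg

noncomputable instance (P : Data) (N k c : ℤ) : DecidablePred (Adm P N k c) :=
  Classical.decPred _

/-- The admissible parameters of a family `P` for class `c`. -/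
noncomputable def Sset (P : Data) (N e k c : ℤ) : Finset ℤ :=
  (Finset.Icc (P.lo N c) (P.lo N c + e)).filter (Adm P N k c)

theorem mem_Sset {P : Data} {N e k c m : ℤ} (h : m ∈ Sset P N e k c) :
    Win P N e c m ∧ (∀ i, qq k i ∣ P.A i * m + P.B N c i) ∧ (P.C N c m).Pairwise Dg := by
  unfold Sset at h
  rw [Finset.mem_filter, Finset.mem_Icc] at h
  exact ⟨⟨h.1.1, h.1.2, h.2.1⟩, h.2.2.1, h.2.2.2⟩

theorem Sset_card {P : Data} {dom : ℤ → ℤ → Prop} (hF : Fam P dom) (N e k c : ℤ) (hk : 1 ≤ k)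
    (hR : Rng N e c) (hD : dom N c) (T : ℕ) (he : 2 * (∏ i, qq k i) * (T + 51) ≤ e) :
    T ≤ (Sset P N e k c).card := by
  obtain ⟨m₀, h1, h2, h3, h4⟩ := crt (qq k) P.A (P.B N c) (qq_pos k hk) (qq_two k)
    (fun i j hij => qq_coprime k hk i j hij) (fun i => qq_216 k i _ (hF.hA i)) (P.par N c) (P.lo N c)
  have hQ : 0 < ∏ i, qq k i := Finset.prod_pos fun i _ => qq_pos k hk i
  have hpar : ∀ m, 2 * (∏ i, qq k i) ∣ m - m₀ → (m - P.par N c) % 2 = 0 := by
    rintro m ⟨t, ht⟩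
    have : m - P.par N c = (m₀ - P.par N c) + 2 * ((∏ i, qq k i) * t) := by
      linear_combination ht
    rw [this, Int.add_mul_emod_self_left]
    exact h3
  unfold Sset
  refine (card_prog (P.lo N c) (P.lo N c + e) m₀ (2 * ∏ i, qq k i) T 50 (by linarith) h1 ?_ _
    (fun t m => (⟨(t : ℕ) / 2 / 5, by omega⟩ : Fin 5) < ⟨(t : ℕ) / 2 % 5, by omega⟩ ∧
      ∃ z w, (P.C N c m)[(t : ℕ) / 2 / 5]? = some z ∧ (P.C N c m)[(t : ℕ) / 2 % 5]? = some w ∧
        (if (t : ℕ) % 2 = 0 then z.1 - z.2 = w.1 - w.2 else z.1 + z.2 = w.1 + w.2))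
    ?_ ?_)
  · push_cast
    nlinarith
  · rintro t m m' a1 a2 a1' a2' d1 d1' ⟨hij, z, w, hz, hw, hzw⟩ ⟨-, z', w', hz', hw', hzw'⟩
    refine hF.coin N e c m m' hR hD ⟨a1, a2, hpar m d1⟩ ⟨a1', a2', hpar m' d1'⟩ _ _ hij z w z' w'
      hz hw hz' hw' ?_
    split_ifs at hzw hzw'
    · exact Or.inl ⟨hzw, hzw'⟩
    · exact Or.inr ⟨hzw, hzw'⟩
  · intro m a1 a2 d1 hE
    refine ⟨hpar m d1, fun i => ?_, ?_⟩
    · obtain ⟨t, ht⟩ := d1
      have hi : qq k i ∣ ∏ i, qq k i := Finset.dvd_prod_of_mem _ (Finset.mem_univ i)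
      have : P.A i * m + P.B N c i = (P.A i * m₀ + P.B N c i) + (∏ i, qq k i) * (2 * t * P.A i) := by
        linear_combination P.A i * ht
      rw [this]
      exact dvd_add (h4 i) (hi.mul_right _)
    · rw [List.pairwise_iff_getElem]
      intro i j hi hj hij
      have hl := hF.lenC N c m
      have hE1 := hE ⟨2 * (5 * i + j), by omega⟩
      have hE2 := hE ⟨2 * (5 * i + j) + 1, by omega⟩
      have e1 : 2 * (5 * i + j) / 2 / 5 = i := by omega
      have e2 : 2 * (5 * i + j) / 2 % 5 = j := by omega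
      have e3 : (2 * (5 * i + j) + 1) / 2 / 5 = i := by omega
      have e4 : (2 * (5 * i + j) + 1) / 2 % 5 = j := by omega
      have e5 : 2 * (5 * i + j) % 2 = 0 := by omega
      have e6 : ¬ (2 * (5 * i + j) + 1) % 2 = 0 := by omega
      simp only [e1, e2, e3, e4, e5, e6, if_true, if_false] at hE1 hE2
      constructor
      · intro hd
        exact hE1 ⟨by simpa using hij, _, _, List.getElem?_eq_getElem hi,
          List.getElem?_eq_getElem hj, hd⟩
      · intro hd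
        exact hE2 ⟨by simpa using hij, _, _, List.getElem?_eq_getElem hi,
          List.getElem?_eq_getElem hj, hd⟩

end Pool.Agent.H29.Q
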