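import Pool.Agent.H29.Q.Pd
import Pool.Agent.H29.Q.Sset

/-!
# Resources and their multiplicities [H29 Q]

An agent is a pair `(c, b)`: class `c`, switch of the first (`b = false`) or second (`b = true`) empty
row; the second one is the half turn of a switch of class `N + 3 - c`.
-/

set_option autoImplicit false

namespace Pool.Agent.H29.Q

/-- parameter class of an agent -/
def cl (N : ℤ) (a : ℤ × Bool) : ℤ := if a.2 then N + 3 - a.1 else a.1

/-- placing of a square -/
def pl (N : ℤ) (b : Bool) (z : ℤ × ℤ) : ℤ × ℤ := if b then (N - 3 - z.1, N - 3 - z.2) else z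

/-- the resources: squares (kind 0), removed rows (1) and diagonals (2, 3) of a class -/
def item (N : ℤ) (κ : Fin 4) (i : Fin 5) (a : ℤ × Bool) (m : ℤ) : Option (ℤ × ℤ × ℤ × ℤ) :=
  match κ with
  | 0 => (((fm N (cl N a)).C N (cl N a) m)[(i : ℕ)]?).map
      (fun z => (0, 0, (pl N a.2 z).1, (pl N a.2 z).2))
  | 1 => (((fm N (cl N a)).H N (cl N a) m)[(i : ℕ)]?).map (fun z => (1, a.1, (pl N a.2 z).1, 0))
  | 2 => (((fm N (cl N a)).C N (cl N a) m)[(i : ℕ)]?).map
      (fun z => (2, a.1, (pl N a.2 z).1 - (pl N a.2 z).2, 0))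
  | 3 => (((fm N (cl N a)).C N (cl N a) m)[(i : ℕ)]?).map
      (fun z => (3, a.1, (pl N a.2 z).1 + (pl N a.2 z).2, 0))

theorem pl_inj {N : ℤ} {b : Bool} {z z' : ℤ × ℤ} (h : pl N b z = pl N b z') : z = z' := by
  unfold pl at h
  cases b
  · simpa using h
  · simp only [if_true, Prod.mk.injEq] at h
    ext
    · linarith [h.1]
    · linarith [h.2]

theorem item_close {N e k : ℤ} (κ : Fin 4) (i : Fin 5) (b : Bool) (j : Fin 8)
    (r : ℤ × ℤ × ℤ × ℤ) (c c' m m' : ℤ)
    (hR : Rng N e (cl N (c, b))) (hR' : Rng N e (cl N (c', b)))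
    (hj : pid N (cl N (c, b)) = j) (hj' : pid N (cl N (c', b)) = j)
    (hm : m ∈ Sset (fm N (cl N (c, b))) N e k (cl N (c, b)))
    (hm' : m' ∈ Sset (fm N (cl N (c', b))) N e k (cl N (c', b)))
    (h : item N κ i (c, b) m = some r) (h' : item N κ i (c', b) m' = some r) :
    |c - c'| ≤ (100 : ℕ) ∧ (c = c' → m = m') := by
  have hf : fm N (cl N (c, b)) = pd j := by unfold fm; rw [hj]
  have hf' : fm N (cl N (c', b)) = pd j := by unfold fm; rw [hj']
  have hF := fams j
  have hW := (mem_Sset hm).1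
  have hW' := (mem_Sset hm').1
  rw [hf] at hW
  rw [hf'] at hW'
  have hcc : |c - c'| = |cl N (c, b) - cl N (c', b)| := by
    unfold cl
    cases b
    · simp
    · simp only [if_true]
      rw [show N + 3 - c - (N + 3 - c') = -(c - c') by ring, abs_neg]
  have hsame : c = c' → cl N (c, b) = cl N (c', b) := fun h => by rw [h]
  -- the case of a common class
  have hkey : c = c' → (∃ z z', (((pd j).H N (cl N (c, b)) m)[(i : ℕ)]? = some z ∧
      ((pd j).H N (cl N (c, b)) m')[(i : ℕ)]? = some z' ∧ z.1 = z'.1)) ∨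
      (∃ z z', (((pd j).C N (cl N (c, b)) m)[(i : ℕ)]? = some z ∧
      ((pd j).C N (cl N (c, b)) m')[(i : ℕ)]? = some z' ∧
      (z.1 - z.2 = z'.1 - z'.2 ∨ z.1 + z.2 = z'.1 + z'.2))) → m = m' := by
    intro hc hz
    have hW2 : Win (pd j) N e (cl N (c, b)) m' := by rw [hsame hc]; exact hW'
    rcases hz with ⟨z, z', h1, h2, h3⟩ | ⟨z, z', h1, h2, h3⟩
    · have hi : (i : ℕ) < 4 := by
        have := hF.lenH N (cl N (c, b)) m
        have := (List.getElem?_eq_some_iff.1 h1).1
        omega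
      exact hF.injH N e _ m m' hR hj hW hW2 ⟨i, hi⟩ z z' h1 h2 h3
    · exact hF.injD N e _ m m' hR hj hW hW2 i z z' h1 h2 h3
  fin_cases κ
  · simp only [item, hf, hf', Option.map_eq_some_iff] at h h'
    obtain ⟨z, hz, hzr⟩ := h
    obtain ⟨z', hz', hzr'⟩ := h'
    have hzz : z = z' := by
      apply pl_inj (N := N) (b := b)
      rw [← hzr'] at hzr
      simp only [Prod.mk.injEq] at hzr
      exact Prod.ext hzr.2.2.1 hzr.2.2.2
    subst hzz
    have := hF.mult N e _ m _ m' hR hj hW hR' hj' hW' i z hz hz'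
    rw [hcc]
    exact ⟨by exact_mod_cast this.1, fun hc => this.2 (hsame hc)⟩
  · simp only [item, hf, hf', Option.map_eq_some_iff] at h h'
    obtain ⟨z, hz, hzr⟩ := h
    obtain ⟨z', hz', hzr'⟩ := h'
    rw [← hzr'] at hzr
    simp only [Prod.mk.injEq] at hzr
    obtain ⟨-, hc, hx, -⟩ := hzr
    refine ⟨by rw [hc]; simp, fun _ => hkey hc (Or.inl ⟨z, z', hz, ?_, ?_⟩)⟩
    · rw [hsame hc]; exact hz'
    · unfold pl at hx
      cases b
      · simpa using hx
      · simp only [if_true] at hx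
        linarith
  · simp only [item, hf, hf', Option.map_eq_some_iff] at h h'
    obtain ⟨z, hz, hzr⟩ := h
    obtain ⟨z', hz', hzr'⟩ := h'
    rw [← hzr'] at hzr
    simp only [Prod.mk.injEq] at hzr
    obtain ⟨-, hc, hx, -⟩ := hzr
    refine ⟨by rw [hc]; simp, fun _ => hkey hc (Or.inr ⟨z, z', hz, ?_, Or.inl ?_⟩)⟩
    · rw [hsame hc]; exact hz'
    · unfold pl at hx
      cases b
      · simpa using hx
      · simp only [if_true] at hx
        linarith
  · simp only [item, hf, hf', Option.map_eq_some_iff] at h h'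
    obtain ⟨z, hz, hzr⟩ := h
    obtain ⟨z', hz', hzr'⟩ := h'
    rw [← hzr'] at hzr
    simp only [Prod.mk.injEq] at hzr
    obtain ⟨-, hc, hx, -⟩ := hzr
    refine ⟨by rw [hc]; simp, fun _ => hkey hc (Or.inr ⟨z, z', hz, ?_, Or.inr ?_⟩)⟩
    · rw [hsame hc]; exact hz'
    · unfold pl at hx
      cases b
      · simpa using hx
      · simp only [if_true] at hx
        linarith

/-- all resources of a choice -/
def res (N : ℤ) (a : ℤ × Bool) (m : ℤ) : Finset (ℤ × ℤ × ℤ × ℤ) :=
  (Finset.univ : Finset (Fin 4 × Fin 5)).biUnion (fun p => (item N p.1 p.2 a m).toFinset)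

theorem res_card (N : ℤ) (a : ℤ × Bool) (m : ℤ) : (res N a m).card ≤ 20 := by
  unfold res
  refine Finset.card_biUnion_le.trans ?_
  refine (Finset.sum_le_sum (g := fun _ => 1) fun p _ => ?_).trans (by simp)
  cases item N p.1 p.2 a m <;> simp

theorem mem_res {N : ℤ} {a : ℤ × Bool} {m : ℤ} {r : ℤ × ℤ × ℤ × ℤ} :
    r ∈ res N a m ↔ ∃ κ i, item N κ i a m = some r := by
  unfold res
  simp [Option.mem_toFinset, Option.mem_def]

theorem res_mult (N e k : ℤ) (G : Finset ℤ) (hG : ∀ c ∈ G, ∀ b, Rng N e (cl N (c, b)))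
    (r : ℤ × ℤ × ℤ × ℤ) :
    ∑ a ∈ G ×ˢ (Finset.univ : Finset Bool),
      ((Sset (fm N (cl N a)) N e k (cl N a)).filter (fun m => r ∈ res N a m)).card ≤ 32320 := by
  classical
  have h1 : ∀ a ∈ G ×ˢ (Finset.univ : Finset Bool),
      ((Sset (fm N (cl N a)) N e k (cl N a)).filter (fun m => r ∈ res N a m)).card ≤
      ∑ p : Fin 4 × Fin 5, ((Sset (fm N (cl N a)) N e k (cl N a)).filter
        (fun m => item N p.1 p.2 a m = some r)).card := by
    intro a _
    refine (Finset.card_le_card ?_).trans Finset.card_biUnion_le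
    intro m hm
    rw [Finset.mem_filter, mem_res] at hm
    obtain ⟨hm, κ, i, h⟩ := hm
    rw [Finset.mem_biUnion]
    exact ⟨(κ, i), Finset.mem_univ _, Finset.mem_filter.2 ⟨hm, h⟩⟩
  refine (Finset.sum_le_sum h1).trans ?_
  rw [Finset.sum_comm]
  have h2 : ∀ p : Fin 4 × Fin 5, ∑ a ∈ G ×ˢ (Finset.univ : Finset Bool),
      ((Sset (fm N (cl N a)) N e k (cl N a)).filter
        (fun m => item N p.1 p.2 a m = some r)).card ≤ 1616 := by
    intro p
    rw [Finset.sum_product_right]
    have h3 : ∀ b : Bool, ∑ c ∈ G, ((Sset (fm N (cl N (c, b))) N e k (cl N (c, b))).filter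
        (fun m => item N p.1 p.2 (c, b) m = some r)).card ≤ 808 := by
      intro b
      rw [← Finset.sum_fiberwise G (fun c => pid N (cl N (c, b)))]
      refine (Finset.sum_le_sum (g := fun _ => 101) fun j _ => ?_).trans (by simp)
      rw [← Finset.card_sigma]
      set X := ((G.filter fun c => pid N (cl N (c, b)) = j).sigma fun c =>
        (Sset (fm N (cl N (c, b))) N e k (cl N (c, b))).filter
          (fun m => item N p.1 p.2 (c, b) m = some r)) with hX
      rw [← Finset.card_image_of_injective (f := fun x : (Σ _ : ℤ, ℤ) => (x.1, x.2)) X (by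
        rintro ⟨x, y⟩ ⟨x', y'⟩ h
        simp only [Prod.mk.injEq] at h
        obtain ⟨rfl, rfl⟩ := h
        rfl)]
      refine card_le_of_close _ 100 ?_
      intro x hx y hy
      rw [Finset.mem_image] at hx hy
      obtain ⟨⟨c, m⟩, hx, rfl⟩ := hx
      obtain ⟨⟨c', m'⟩, hy, rfl⟩ := hy
      rw [hX, Finset.mem_sigma, Finset.mem_filter, Finset.mem_filter] at hx hy
      exact item_close p.1 p.2 b j r c c' m m' (hG c hx.1.1 b) (hG c' hy.1.1 b) hx.1.2 hy.1.2
        hx.2.1 hy.2.1 hx.2.2 hy.2.2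
    calc _ ≤ ∑ _b : Bool, 808 := Finset.sum_le_sum fun b _ => h3 b
      _ = 1616 := by simp
  calc _ ≤ ∑ _p : Fin 4 × Fin 5, 1616 := Finset.sum_le_sum fun p _ => h2 p
    _ = 32320 := by simp

end Pool.Agent.H29.Q
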