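import Pool.Agent.H29.Q.Defs

/-!
# Module RC [H29 Q]: random choice

Agents `a ∈ A` choose `k ∈ S a` (at least `T` choices each); `res a k` is the set of resources used.
Every resource is used by at most `B` pairs `(a, k)` altogether, every choice uses at most `M`
resources. Then one can choose `f` such that after removal of at most `M B |A| / T` agents the
resource sets are pairwise disjoint.

PROOF (no averaging over all choices is needed). Take a choice `f` with the smallest number of
ordered conflicting pairs `(a, a')` (`res a (f a)` meets `res a' (f a')`, `a ≠ a'`). Changing `f a`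
to any `k` in `S a` does not decrease this number, so the number of conflicts of `a` is at most the
number of conflicts of the choice `k`. Summing over `k` in `S a` and over `a`: `T` times the number of
conflicts is at most the number of `(a, k, a', r)` with `r` in `res a' (f a')` and in `res a k`, which is
at most `|A| M B`. `Bad` is the set of all `a` in a conflicting pair.
-/

set_option autoImplicit false

namespace Pool.Agent.H29.Q

section

variable {ι κ ρ : Type*} [DecidableEq ι] [DecidableEq ρ]

/-- Conflict of two choices of different agents. -/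
private def W (res : ι → κ → Finset ρ) (a : ι) (k : κ) (a' : ι) (k' : κ) : ℕ :=
  if a ≠ a' ∧ ¬ Disjoint (res a k) (res a' k') then 1 else 0

private theorem W_symm (res : ι → κ → Finset ρ) (a : ι) (k : κ) (a' : ι) (k' : κ) :
    W res a k a' k' = W res a' k' a k := by
  unfold W
  simp only [ne_comm, disjoint_comm]

private theorem W_self (res : ι → κ → Finset ρ) (a : ι) (k k' : κ) : W res a k a k' = 0 := by
  simp [W]

private def cost (A : Finset ι) (res : ι → κ → Finset ρ) (f : ι → κ) : ℕ :=
  ∑ b ∈ A, ∑ b' ∈ A, W res b (f b) b' (f b')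

private theorem cost_split (A : Finset ι) (res : ι → κ → Finset ρ) (f : ι → κ) (a : ι)
    (ha : a ∈ A) : cost A res f = 2 * ∑ b ∈ A, W res a (f a) b (f b) +
      ∑ b ∈ A.erase a, ∑ b' ∈ A.erase a, W res b (f b) b' (f b') := by
  have h0 : ∑ b ∈ A, W res a (f a) b (f b) = ∑ b ∈ A.erase a, W res a (f a) b (f b) := by
    rw [← Finset.add_sum_erase A _ ha, W_self, zero_add]
  have h1 : ∀ b, ∑ b' ∈ A, W res b (f b) b' (f b') =
      W res a (f a) b (f b) + ∑ b' ∈ A.erase a, W res b (f b) b' (f b') := by
    intro b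
    rw [← Finset.add_sum_erase A _ ha, W_symm res b (f b) a (f a)]
  unfold cost
  rw [← Finset.add_sum_erase A _ ha, Finset.sum_congr rfl (fun b _ => h1 b),
    Finset.sum_add_distrib, h0]
  ring

private theorem cost_update (A : Finset ι) (res : ι → κ → Finset ρ) (f : ι → κ) (a : ι)
    (ha : a ∈ A) (k : κ) : cost A res (Function.update f a k) =
      2 * ∑ b ∈ A, W res a k b (f b) +
      ∑ b ∈ A.erase a, ∑ b' ∈ A.erase a, W res b (f b) b' (f b') := by
  rw [cost_split A res _ a ha]
  congr 1
  · congr 1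
    refine Finset.sum_congr rfl fun b _ => ?_
    rw [Function.update_self]
    by_cases hb : b = a
    · subst hb
      rw [W_self, W_self]
    · rw [Function.update_of_ne hb]
  · refine Finset.sum_congr rfl fun b hb => Finset.sum_congr rfl fun b' hb' => ?_
    rw [Function.update_of_ne (Finset.ne_of_mem_erase hb),
      Function.update_of_ne (Finset.ne_of_mem_erase hb')]

private theorem W_le (res : ι → κ → Finset ρ) (a : ι) (k : κ) (a' : ι) (k' : κ) :
    W res a k a' k' ≤ ∑ r ∈ res a' k', if r ∈ res a k then 1 else 0 := by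
  unfold W
  split_ifs with h
  · obtain ⟨_, h2⟩ := h
    obtain ⟨r, hr, hr'⟩ := Finset.not_disjoint_iff.mp h2
    calc 1 = (if r ∈ res a k then 1 else 0) := by rw [if_pos hr]
      _ ≤ _ := Finset.single_le_sum (f := fun r => if r ∈ res a k then 1 else 0)
        (fun _ _ => Nat.zero_le _) hr'
  · exact Nat.zero_le _

end

theorem rc {ι κ ρ : Type*} [DecidableEq ι] [DecidableEq κ] [DecidableEq ρ] [Nonempty κ]
    (A : Finset ι) (S : ι → Finset κ) (T : ℕ) (hT : 0 < T) (hS : ∀ a ∈ A, T ≤ (S a).card)
    (res : ι → κ → Finset ρ) (M B : ℕ)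
    (h1 : ∀ a ∈ A, ∀ k ∈ S a, (res a k).card ≤ M)
    (h2 : ∀ r : ρ, ∑ a ∈ A, ((S a).filter (fun k => r ∈ res a k)).card ≤ B) :
    ∃ f : ι → κ, (∀ a ∈ A, f a ∈ S a) ∧ ∃ Bad ⊆ A, T * Bad.card ≤ M * B * A.card ∧
      ∀ a ∈ A \ Bad, ∀ a' ∈ A \ Bad, a ≠ a' → Disjoint (res a (f a)) (res a' (f a')) := by
  classical
  have hne : ∀ a, ∃ k, a ∈ A → k ∈ S a := by
    intro a
    by_cases ha : a ∈ A
    · have : 0 < (S a).card := lt_of_lt_of_le hT (hS a ha)
      obtain ⟨k, hk⟩ := Finset.card_pos.mp this
      exact ⟨k, fun _ => hk⟩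
    · exact ⟨Classical.arbitrary κ, fun h => absurd h ha⟩
  choose f₀ hf₀ using hne
  have hex : ∃ n, ∃ f : ι → κ, (∀ a ∈ A, f a ∈ S a) ∧ cost A res f = n :=
    ⟨_, f₀, hf₀, rfl⟩
  obtain ⟨f, hf, hcost⟩ := Nat.find_spec hex
  have hmin : ∀ g : ι → κ, (∀ a ∈ A, g a ∈ S a) → cost A res f ≤ cost A res g := by
    intro g hg
    rw [hcost]
    exact Nat.find_min' hex ⟨g, hg, rfl⟩
  -- local optimality
  have hloc : ∀ a ∈ A, ∀ k ∈ S a,
      ∑ b ∈ A, W res a (f a) b (f b) ≤ ∑ b ∈ A, W res a k b (f b) := by
    intro a ha k hk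
    have h := hmin (Function.update f a k) (by
      intro b hb
      by_cases hba : b = a
      · subst hba
        rw [Function.update_self]
        exact hk
      · rw [Function.update_of_ne hba]
        exact hf b hb)
    rw [cost_update A res f a ha k, cost_split A res f a ha] at h
    omega
  have hsum : T * ∑ a ∈ A, ∑ b ∈ A, W res a (f a) b (f b) ≤ M * B * A.card := by
    calc T * ∑ a ∈ A, ∑ b ∈ A, W res a (f a) b (f b)
        = ∑ a ∈ A, T * ∑ b ∈ A, W res a (f a) b (f b) := Finset.mul_sum _ _ _
      _ ≤ ∑ a ∈ A, ∑ k ∈ S a, ∑ b ∈ A, W res a k b (f b) := by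
          refine Finset.sum_le_sum fun a ha => ?_
          calc T * ∑ b ∈ A, W res a (f a) b (f b)
              ≤ (S a).card * ∑ b ∈ A, W res a (f a) b (f b) :=
                Nat.mul_le_mul_right _ (hS a ha)
            _ = ∑ _k ∈ S a, ∑ b ∈ A, W res a (f a) b (f b) := by
                rw [Finset.sum_const, smul_eq_mul]
            _ ≤ _ := Finset.sum_le_sum fun k hk => hloc a ha k hk
      _ ≤ ∑ a ∈ A, ∑ k ∈ S a, ∑ b ∈ A, ∑ r ∈ res b (f b), (if r ∈ res a k then 1 else 0) :=
          Finset.sum_le_sum fun a _ => Finset.sum_le_sum fun k _ =>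
            Finset.sum_le_sum fun b _ => W_le res a k b (f b)
      _ = ∑ b ∈ A, ∑ r ∈ res b (f b), ∑ a ∈ A, ∑ k ∈ S a, (if r ∈ res a k then 1 else 0) := by
          have e1 : ∀ a ∈ A, ∑ k ∈ S a, ∑ b ∈ A, ∑ r ∈ res b (f b),
              (if r ∈ res a k then 1 else 0) = ∑ b ∈ A, ∑ r ∈ res b (f b), ∑ k ∈ S a,
              (if r ∈ res a k then 1 else 0) := by
            intro a _
            rw [Finset.sum_comm]
            exact Finset.sum_congr rfl fun b _ => Finset.sum_comm
          rw [Finset.sum_congr rfl e1, Finset.sum_comm]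
          exact Finset.sum_congr rfl fun b _ => Finset.sum_comm
      _ ≤ ∑ b ∈ A, ∑ _r ∈ res b (f b), B := by
          refine Finset.sum_le_sum fun b _ => Finset.sum_le_sum fun r _ => ?_
          refine le_trans (le_of_eq ?_) (h2 r)
          exact Finset.sum_congr rfl fun a _ => (Finset.card_filter _ _).symm
      _ ≤ ∑ _b ∈ A, M * B := by
          refine Finset.sum_le_sum fun b hb => ?_
          rw [Finset.sum_const, smul_eq_mul]
          exact Nat.mul_le_mul_right _ (h1 b hb _ (hf b hb))
      _ = M * B * A.card := by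
          rw [Finset.sum_const, smul_eq_mul, mul_comm]
  refine ⟨f, hf, A.filter (fun a => ∑ b ∈ A, W res a (f a) b (f b) ≠ 0),
    Finset.filter_subset _ _, ?_, ?_⟩
  · refine le_trans (Nat.mul_le_mul_left _ ?_) hsum
    rw [Finset.card_filter]
    refine Finset.sum_le_sum fun a _ => ?_
    split_ifs with h
    · exact Nat.one_le_iff_ne_zero.mpr h
    · exact Nat.zero_le _
  · intro a ha a' ha' hne'
    rw [Finset.mem_sdiff, Finset.mem_filter, not_and, not_not] at ha
    rw [Finset.mem_sdiff] at ha'
    have hz := (Finset.sum_eq_zero_iff.mp (ha.2 ha.1)) a' ha'.1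
    by_contra hd
    simp [W, hne', hd] at hz

end Pool.Agent.H29.Q
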