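import Pool.Agent.H29.Q.Items
import Pool.Agent.H29.Q.Rc
import Pool.Agent.H29.Q.Comb
import Pool.Agent.H29.Q.Fin

/-!
# Assembly [H29 Q]
-/

set_option autoImplicit false

namespace Pool.Agent.H29.Q

/-- the reservoir classes -/
noncomputable def RS (N k : ℤ) : Finset ℤ := (Finset.Icc 0 (N - 1)).filter (fun c =>
      ∃ i : Fin 5, qq k i ∣ c ∨ qq k i ∣ c - N ∨ qq k i ∣ c - 2 * N)

/-- the good classes -/
noncomputable def GG (N e k : ℤ) : Finset ℤ := (Finset.Icc (1000 * e + 3) (N - 1000 * e)).filter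
  (fun c => c ∉ RS N k ∧ N + 3 - c ∉ RS N k)

theorem GG_rng {N e k c : ℤ} (hN : N % 6 = 5) (he : 10 ≤ e) (hN2 : 20000 * e ≤ N)
    (hc : c ∈ GG N e k) (b : Bool) : Rng N e (cl N (c, b)) := by
  unfold GG at hc
  rw [Finset.mem_filter, Finset.mem_Icc] at hc
  unfold cl
  cases b
  · simp only [Bool.false_eq_true, if_false]
    exact ⟨hN, he, hN2, by omega, by omega⟩
  · simp only [if_true]
    exact ⟨hN, he, hN2, by omega, by omega⟩

theorem GG_card (N e k : ℤ) (hk : 1 ≤ k) (he : 10 ≤ e) (hN2 : 20000 * e ≤ N) :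
    2 * k * (N - 2000 * e - 2) ≤ 2 * k * ((GG N e k).card : ℤ) + (N + 60 * k) := by
  classical
  have h1 := resv_card N k hk (by linarith)
  have h2 : (Finset.Icc (1000 * e + 3) (N - 1000 * e)).card ≤
      (GG N e k).card + (RS N k).card + (RS N k).card := by
    have hsub : Finset.Icc (1000 * e + 3) (N - 1000 * e) ⊆
        (GG N e k ∪ RS N k) ∪ (RS N k).image (fun c => N + 3 - c) := by
      intro c hc
      simp only [Finset.mem_union, Finset.mem_image]
      by_cases h : c ∈ RS N k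
      · exact Or.inl (Or.inr h)
      · by_cases h' : N + 3 - c ∈ RS N k
        · exact Or.inr ⟨_, h', by ring⟩
        · exact Or.inl (Or.inl (Finset.mem_filter.2 ⟨hc, h, h'⟩))
    refine (Finset.card_le_card hsub).trans ?_
    refine (Finset.card_union_le _ _).trans ?_
    exact add_le_add (Finset.card_union_le _ _) Finset.card_image_le
  have h3 : ((Finset.Icc (1000 * e + 3) (N - 1000 * e)).card : ℤ) = N - 2000 * e - 2 := by
    rw [Int.card_Icc, Int.toNat_of_nonneg (by linarith)]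
    ring
  have h4 : N - 2000 * e - 2 ≤ ((GG N e k).card : ℤ) + (RS N k).card + (RS N k).card := by
    rw [← h3]
    exact_mod_cast h2
  have h5 : 4 * k * ((RS N k).card : ℤ) ≤ N + 60 * k := h1
  nlinarith

/-- a square of class `c` whose class is a multiple of a modulus: `c` is in the reservoir -/
theorem RS_of_dvd {N k c : ℤ} (hc : 0 ≤ c) (hc' : c ≤ N - 1) (z : ℤ × ℤ) (hz : Bs N c z.1 z.2)
    (h : ∃ i, qq k i ∣ z.2 - 2 * z.1) : c ∈ RS N k := by
  obtain ⟨i, hi⟩ := h
  refine Finset.mem_filter.2 ⟨Finset.mem_Icc.2 ⟨hc, hc'⟩, i, ?_⟩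
  obtain ⟨-, -, -, -, h | h | h⟩ := hz
  · left
    rw [show z.2 - 2 * z.1 = c by rw [h]; ring] at hi
    exact hi
  · right; left
    rw [show z.2 - 2 * z.1 = c - N by rw [h]; ring] at hi
    exact hi
  · right; right
    rw [show z.2 - 2 * z.1 = c - 2 * N by rw [h]; ring] at hi
    exact hi

theorem Bs_turn {N c : ℤ} {x y : ℤ} (h : Bs N c (N - 3 - x) (N - 3 - y)) : Bs N (N + 3 - c) x y := by
  obtain ⟨h0, h1, h2, h3, h4⟩ := h
  exact ⟨by linarith, by linarith, by linarith, by linarith, by omega⟩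

theorem Bs_class {N c c' : ℤ} (hc : 0 ≤ c) (hc1 : c < N) (hc' : 0 ≤ c') (hc1' : c' < N) {x y : ℤ}
    (h : Bs N c x y) (h' : Bs N c' x y) : c = c' := by
  obtain ⟨h0, h1, h2, h3, h4⟩ := h
  obtain ⟨-, -, -, -, h5⟩ := h'
  omega

theorem dvd_of_mem {N e k c m : ℤ} (hN : N % 6 = 5) (hm : m ∈ Sset (fm N c) N e k c) (z : ℤ × ℤ)
    (hz : z ∈ (fm N c).C N c m) : ∃ i, qq k i ∣ z.2 - 2 * z.1 := by
  obtain ⟨hW, hd, -⟩ := mem_Sset hm
  have hF := fm_fam N c
  obtain ⟨i, hi, rfl⟩ := List.getElem_of_mem hz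
  have hl := hF.lenC N c m
  refine ⟨⟨i, by omega⟩, ?_⟩
  rw [hF.dvd N c m hW.h3 hN rfl ⟨i, by omega⟩ _ (List.getElem?_eq_getElem hi)]
  exact hd _

theorem main (N e k : ℤ) (T : ℕ) (hN : N % 6 = 5) (he : 10 ≤ e) (hN2 : 20000 * e ≤ N) (hk : 1 ≤ k)
    (hT : 0 < T) (he2 : 2 * (∏ i, qq k i) * (T + 51) ≤ e) :
    ∃ F, IsPacking (N - 2).toNat F ∧
      T * (GG N e k).card ≤ T * F.card + 20 * 32320 * ((GG N e k).card * 2) := by
  classical
  set A : Finset (ℤ × Bool) := GG N e k ×ˢ (Finset.univ : Finset Bool) with hA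
  have hAc : A.card = (GG N e k).card * 2 := by
    rw [hA, Finset.card_product, Finset.card_univ, Fintype.card_bool]
  have hAm : ∀ a ∈ A, Rng N e (cl N a) := by
    rintro ⟨c, b⟩ ha
    rw [hA, Finset.mem_product] at ha
    exact GG_rng hN he hN2 ha.1 b
  obtain ⟨f, hf, Bad, hBA, hBc, hdis⟩ := rc A (fun a => Sset (fm N (cl N a)) N e k (cl N a)) T hT
    (fun a ha => Sset_card (fm_fam N (cl N a)) N e k (cl N a) hk (hAm a ha) rfl T he2)
    (res N) 20 32320 (fun a _ m _ => res_card N a m)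
    (res_mult N e k (GG N e k) (fun c hc b => GG_rng hN he hN2 hc b))
  set G := (GG N e k).filter (fun c => (c, false) ∉ Bad ∧ (c, true) ∉ Bad) with hG
  -- resources of different remaining agents
  have hres : ∀ a ∈ A \ Bad, ∀ a' ∈ A \ Bad, a ≠ a' → ∀ κ i κ' i' r,
      item N κ i a (f a) = some r → item N κ' i' a' (f a') = some r → False := by
    intro a ha a' ha' hne κ i κ' i' r h h'
    exact Finset.disjoint_left.1 (hdis a ha a' ha' hne) (mem_res.2 ⟨κ, i, h⟩)
      (mem_res.2 ⟨κ', i', h'⟩)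
  have hGA : ∀ c ∈ G, ∀ b, (c, b) ∈ A \ Bad := by
    intro c hc b
    rw [hG, Finset.mem_filter] at hc
    rw [Finset.mem_sdiff]
    refine ⟨Finset.mem_product.2 ⟨hc.1, Finset.mem_univ _⟩, ?_⟩
    cases b
    · exact hc.2.1
    · exact hc.2.2
  have hGr : ∀ c ∈ G, 4 ≤ c ∧ c < N ∧ c ∉ RS N k ∧ N + 3 - c ∉ RS N k ∧ 0 ≤ c ∧
      0 ≤ N + 3 - c ∧ N + 3 - c ≤ N - 1 := by
    intro c hc
    rw [hG, Finset.mem_filter] at hc
    have := hc.1
    unfold GG at this
    rw [Finset.mem_filter, Finset.mem_Icc] at this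
    refine ⟨by omega, by omega, this.2.1, this.2.2, by omega, by omega, by omega⟩
  -- an added square of kind 0 as a resource
  have hit : ∀ a m z, z ∈ (fm N (cl N a)).C N (cl N a) m → ∃ i : Fin 5,
      ((fm N (cl N a)).C N (cl N a) m)[(i : ℕ)]? = some z := by
    intro a m z hz
    obtain ⟨i, hi, rfl⟩ := List.getElem_of_mem hz
    have hl := (fm_fam N (cl N a)).lenC N (cl N a) m
    exact ⟨⟨i, by omega⟩, List.getElem?_eq_getElem hi⟩
  have hitH : ∀ a m z, z ∈ (fm N (cl N a)).H N (cl N a) m → ∃ i : Fin 5,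
      ((fm N (cl N a)).H N (cl N a) m)[(i : ℕ)]? = some z := by
    intro a m z hz
    obtain ⟨i, hi, rfl⟩ := List.getElem_of_mem hz
    have hl := (fm_fam N (cl N a)).lenH N (cl N a) m
    exact ⟨⟨i, by omega⟩, List.getElem?_eq_getElem hi⟩
  -- the patterns
  have hP : ∀ c ∈ G, ∃ P : Finset (ℕ × ℕ), IsPattern (N - 2).toNat P ∧
      ∀ p ∈ P, Bs N c ((p.1 : ℤ) - 1) ((p.2 : ℤ) - 1) ∨
        ∃ b z, z ∈ (fm N (cl N (c, b))).C N (cl N (c, b)) (f (c, b)) ∧
          pl N b z = ((p.1 : ℤ) - 1, (p.2 : ℤ) - 1) := by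
    intro c hc
    obtain ⟨h4, hcN, -, -, -⟩ := hGr c hc
    have hm0 := hf (c, false) (Finset.mem_sdiff.1 (hGA c hc false)).1
    have hm1 := hf (c, true) (Finset.mem_sdiff.1 (hGA c hc true)).1
    have hR0 := hAm (c, false) (Finset.mem_sdiff.1 (hGA c hc false)).1
    have hR1 := hAm (c, true) (Finset.mem_sdiff.1 (hGA c hc true)).1
    obtain ⟨hW0, -, hp0⟩ := mem_Sset hm0
    obtain ⟨hW1, -, hp1⟩ := mem_Sset hm1
    have hs0 := (fm_fam N (cl N (c, false))).sw N e _ _ hR0 rfl hW0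
    have hs1 := (fm_fam N (cl N (c, true))).sw N e _ _ hR1 rfl hW1
    have hne : ((c, false) : ℤ × Bool) ≠ (c, true) := by simp
    obtain ⟨P, hP1, hP2⟩ := comb N c hN h4 hcN _ _ _ _ hs0 hs1 hp0 hp1
      (by
        intro p hp p' hp' heq
        obtain ⟨i, hi⟩ := hitH (c, false) _ p hp
        obtain ⟨i', hi'⟩ := hitH (c, true) _ p' hp'
        refine hres _ (hGA c hc false) _ (hGA c hc true) hne 1 i 1 i' (1, c, p.1, 0) ?_ ?_
        · simp only [item, hi, Option.map_some, pl, Bool.false_eq_true, if_false]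
        · simp only [item, hi', Option.map_some, pl, if_true, heq])
      (by
        intro z hz z' hz'
        obtain ⟨i, hi⟩ := hit (c, false) _ z hz
        obtain ⟨i', hi'⟩ := hit (c, true) _ z' hz'
        constructor
        · intro heq
          refine hres _ (hGA c hc false) _ (hGA c hc true) hne 2 i 2 i' (2, c, z.1 - z.2, 0) ?_ ?_
          · simp only [item, hi, Option.map_some, pl, Bool.false_eq_true, if_false]
          · simp only [item, hi', Option.map_some, pl, if_true, heq]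
        · intro heq
          refine hres _ (hGA c hc false) _ (hGA c hc true) hne 3 i 3 i' (3, c, z.1 + z.2, 0) ?_ ?_
          · simp only [item, hi, Option.map_some, pl, Bool.false_eq_true, if_false]
          · simp only [item, hi', Option.map_some, pl, if_true, heq])
    refine ⟨P, hP1, fun p hp => ?_⟩
    rcases hP2 p hp with h | h | h
    · exact Or.inl h
    · exact Or.inr ⟨false, _, h, by simp [pl]⟩
    · refine Or.inr ⟨true, _, h, ?_⟩
      simp only [pl, if_true]
      ext <;> simp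
  choose! P hP1 hP2 using hP
  -- disjointness
  have hdj : ∀ c ∈ G, ∀ c' ∈ G, c ≠ c' → Disjoint (P c) (P c') := by
    intro c hc c' hc' hcc
    rw [Finset.disjoint_left]
    intro p hp hp'
    obtain ⟨h4, hcN, hr1, hr2, h0, h01, h02⟩ := hGr c hc
    obtain ⟨h4', hcN', hr1', hr2', h0', h01', h02'⟩ := hGr c' hc'
    -- base square of one class, added square of the other
    have hmix : ∀ d d', d ∈ G → d' ∈ G → Bs N d ((p.1 : ℤ) - 1) ((p.2 : ℤ) - 1) →
        (∃ b z, z ∈ (fm N (cl N (d', b))).C N (cl N (d', b)) (f (d', b)) ∧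
          pl N b z = ((p.1 : ℤ) - 1, (p.2 : ℤ) - 1)) → False := by
      rintro d d' hd hd' hB ⟨b, z, hz, hpz⟩
      obtain ⟨q4, qcN, qr1, qr2, q0, q01, q02⟩ := hGr d hd
      have hm := hf (d', b) (Finset.mem_sdiff.1 (hGA d' hd' b)).1
      have hdv := dvd_of_mem hN hm z hz
      cases b
      · simp only [pl, Bool.false_eq_true, if_false] at hpz
        rw [Prod.ext_iff] at hpz
        simp only at hpz
        rw [← hpz.1, ← hpz.2] at hB
        exact qr1 (RS_of_dvd q0 (by omega) z hB hdv)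
      · simp only [pl, if_true] at hpz
        rw [Prod.ext_iff] at hpz
        simp only at hpz
        rw [← hpz.1, ← hpz.2] at hB
        exact qr2 (RS_of_dvd q01 q02 z (Bs_turn hB) hdv)
    rcases hP2 c hc p hp with h | h <;> rcases hP2 c' hc' p hp' with h' | h'
    · exact hcc (Bs_class h0 hcN h0' hcN' h h')
    · exact hmix c c' hc hc' h h'
    · exact hmix c' c hc' hc h' h
    · obtain ⟨b, z, hz, hpz⟩ := h
      obtain ⟨b', z', hz', hpz'⟩ := h'
      obtain ⟨i, hi⟩ := hit (c, b) _ z hz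
      obtain ⟨i', hi'⟩ := hit (c', b') _ z' hz'
      refine hres _ (hGA c hc b) _ (hGA c' hc' b') (fun h => hcc (Prod.ext_iff.1 h).1) 0 i 0 i'
        (0, 0, (p.1 : ℤ) - 1, (p.2 : ℤ) - 1) ?_ ?_
      · simp only [item, hi, Option.map_some, hpz]
      · simp only [item, hi', Option.map_some, hpz']
  have hn : 0 < (N - 2).toNat := by omega
  have hne : ∀ c ∈ G, (P c).Nonempty := by
    intro c hc
    rw [← Finset.card_pos, (hP1 c hc).1]
    exact hn
  have hinj : Set.InjOn P G := by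
    intro c hc c' hc' h
    by_contra hcc
    have := hdj c hc c' hc' hcc
    rw [h, Finset.disjoint_self_iff_empty] at this
    exact (hne c' hc').ne_empty this
  refine ⟨G.image P, ⟨?_, ?_⟩, ?_⟩
  · intro S hS
    rw [Finset.mem_image] at hS
    obtain ⟨c, hc, rfl⟩ := hS
    exact hP1 c hc
  · intro S hS S' hS' hSS
    rw [Finset.mem_image] at hS hS'
    obtain ⟨c, hc, rfl⟩ := hS
    obtain ⟨c', hc', rfl⟩ := hS'
    exact hdj c hc c' hc' (fun h => hSS (by rw [h]))
  · rw [Finset.card_image_of_injOn hinj]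
    have hcard : (GG N e k).card ≤ G.card + Bad.card := by
      have hsub : GG N e k ⊆ G ∪ Bad.image Prod.fst := by
        intro c hc
        rw [Finset.mem_union]
        by_cases h1 : (c, false) ∈ Bad
        · exact Or.inr (Finset.mem_image.2 ⟨_, h1, rfl⟩)
        · by_cases h2 : (c, true) ∈ Bad
          · exact Or.inr (Finset.mem_image.2 ⟨_, h2, rfl⟩)
          · exact Or.inl (Finset.mem_filter.2 ⟨hc, h1, h2⟩)
      exact (Finset.card_le_card hsub).trans ((Finset.card_union_le _ _).trans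
        (add_le_add le_rfl Finset.card_image_le))
    rw [← hAc]
    calc T * (GG N e k).card ≤ T * (G.card + Bad.card) := Nat.mul_le_mul_left _ hcard
      _ = T * G.card + T * Bad.card := by ring
      _ ≤ T * G.card + 20 * 32320 * A.card := by linarith

end Pool.Agent.H29.Q
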