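import Pool.Agent.H29.Q.PA1a

/-!
# Family A1 of switches: multiplicities [H29 Q] (generated)
-/

set_option autoImplicit false
set_option linter.unusedVariables false

namespace Pool.Agent.H29.Q.A1

theorem mult0 {N e c m u r2 w1 a c' m' u' r2' w1' a' : ℤ} (h : Cx N e c m u r2 w1 a) (h' : Cx N e c' m' u' r2' w1' a')
    (h1 : u = u') (h2 : (2 * a + c - N) = (2 * a' + c' - N)) :
    |c - c'| ≤ 100 ∧ (c = c' → m = m') := by
  obtain ⟨hN, he, hN2, hc1, hc2, hI2, hr2, hr, hu, hw1a, hw1b, hm1, hm2, ha⟩ := h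
  obtain ⟨hN', he', hN2', hc1', hc2', hI2', hr2', hr', hu', hw1a', hw1b', hm1', hm2', ha'⟩ := h'
  have e1 : 0 ≤ r2 := hr2 ▸ Int.emod_nonneg c (by norm_num)
  have e2 : r2 < 2 := hr2 ▸ Int.emod_lt_of_pos c (by norm_num)
  have e1' : 0 ≤ r2' := hr2' ▸ Int.emod_nonneg c' (by norm_num)
  have e2' : r2' < 2 := hr2' ▸ Int.emod_lt_of_pos c' (by norm_num)
  refine ⟨abs_le.2 ⟨by linarith, by linarith⟩, fun hcc => ?_⟩
  subst hcc
  have hrr : r2 = r2' := hr2.symm.trans hr2'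
  subst hrr
  have hqw1 : w1 = w1' := by
    clear * - hw1a hw1b hw1a' hw1b'
    omega
  linarith

theorem mult1 {N e c m u r2 w1 a c' m' u' r2' w1' a' : ℤ} (h : Cx N e c m u r2 w1 a) (h' : Cx N e c' m' u' r2' w1' a')
    (h1 : a = a') (h2 : (2 * (9 * m + 2 - 2 * N) + c - 2 * N) = (2 * (9 * m' + 2 - 2 * N) + c' - 2 * N)) :
    |c - c'| ≤ 100 ∧ (c = c' → m = m') := by
  obtain ⟨hN, he, hN2, hc1, hc2, hI2, hr2, hr, hu, hw1a, hw1b, hm1, hm2, ha⟩ := h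
  obtain ⟨hN', he', hN2', hc1', hc2', hI2', hr2', hr', hu', hw1a', hw1b', hm1', hm2', ha'⟩ := h'
  have e1 : 0 ≤ r2 := hr2 ▸ Int.emod_nonneg c (by norm_num)
  have e2 : r2 < 2 := hr2 ▸ Int.emod_lt_of_pos c (by norm_num)
  have e1' : 0 ≤ r2' := hr2' ▸ Int.emod_nonneg c' (by norm_num)
  have e2' : r2' < 2 := hr2' ▸ Int.emod_lt_of_pos c' (by norm_num)
  refine ⟨abs_le.2 ⟨by linarith, by linarith⟩, fun hcc => ?_⟩
  subst hcc
  have hrr : r2 = r2' := hr2.symm.trans hr2'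
  subst hrr
  have hqw1 : w1 = w1' := by
    clear * - hw1a hw1b hw1a' hw1b'
    omega
  linarith

theorem mult2 {N e c m u r2 w1 a c' m' u' r2' w1' a' : ℤ} (h : Cx N e c m u r2 w1 a) (h' : Cx N e c' m' u' r2' w1' a')
    (h1 : (9 * m + 2 - 2 * N) = (9 * m' + 2 - 2 * N)) (h2 : (c - 2) = (c' - 2)) :
    |c - c'| ≤ 100 ∧ (c = c' → m = m') := by
  obtain ⟨hN, he, hN2, hc1, hc2, hI2, hr2, hr, hu, hw1a, hw1b, hm1, hm2, ha⟩ := h
  obtain ⟨hN', he', hN2', hc1', hc2', hI2', hr2', hr', hu', hw1a', hw1b', hm1', hm2', ha'⟩ := h'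
  have e1 : 0 ≤ r2 := hr2 ▸ Int.emod_nonneg c (by norm_num)
  have e2 : r2 < 2 := hr2 ▸ Int.emod_lt_of_pos c (by norm_num)
  have e1' : 0 ≤ r2' := hr2' ▸ Int.emod_nonneg c' (by norm_num)
  have e2' : r2' < 2 := hr2' ▸ Int.emod_lt_of_pos c' (by norm_num)
  refine ⟨abs_le.2 ⟨by linarith, by linarith⟩, fun hcc => ?_⟩
  subst hcc
  have hrr : r2 = r2' := hr2.symm.trans hr2'
  subst hrr
  have hqw1 : w1 = w1' := by
    clear * - hw1a hw1b hw1a' hw1b'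
    omega
  linarith

theorem mult3 {N e c m u r2 w1 a c' m' u' r2' w1' a' : ℤ} (h : Cx N e c m u r2 w1 a) (h' : Cx N e c' m' u' r2' w1' a')
    (h1 : (3 * w1 + 1 - 3 * m) = (3 * w1' + 1 - 3 * m')) (h2 : (2 * (3 * m) + c - 2 * N) = (2 * (3 * m') + c' - 2 * N)) :
    |c - c'| ≤ 100 ∧ (c = c' → m = m') := by
  obtain ⟨hN, he, hN2, hc1, hc2, hI2, hr2, hr, hu, hw1a, hw1b, hm1, hm2, ha⟩ := h
  obtain ⟨hN', he', hN2', hc1', hc2', hI2', hr2', hr', hu', hw1a', hw1b', hm1', hm2', ha'⟩ := h'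
  have e1 : 0 ≤ r2 := hr2 ▸ Int.emod_nonneg c (by norm_num)
  have e2 : r2 < 2 := hr2 ▸ Int.emod_lt_of_pos c (by norm_num)
  have e1' : 0 ≤ r2' := hr2' ▸ Int.emod_nonneg c' (by norm_num)
  have e2' : r2' < 2 := hr2' ▸ Int.emod_lt_of_pos c' (by norm_num)
  refine ⟨abs_le.2 ⟨by linarith, by linarith⟩, fun hcc => ?_⟩
  subst hcc
  have hrr : r2 = r2' := hr2.symm.trans hr2'
  subst hrr
  have hqw1 : w1 = w1' := by
    clear * - hw1a hw1b hw1a' hw1b'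
    omega
  linarith

theorem mult4 {N e c m u r2 w1 a c' m' u' r2' w1' a' : ℤ} (h : Cx N e c m u r2 w1 a) (h' : Cx N e c' m' u' r2' w1' a')
    (h1 : (3 * m) = (3 * m')) (h2 : (2 * (3 * w1 + 1 - 3 * m) + c) = (2 * (3 * w1' + 1 - 3 * m') + c')) :
    |c - c'| ≤ 100 ∧ (c = c' → m = m') := by
  obtain ⟨hN, he, hN2, hc1, hc2, hI2, hr2, hr, hu, hw1a, hw1b, hm1, hm2, ha⟩ := h
  obtain ⟨hN', he', hN2', hc1', hc2', hI2', hr2', hr', hu', hw1a', hw1b', hm1', hm2', ha'⟩ := h'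
  have e1 : 0 ≤ r2 := hr2 ▸ Int.emod_nonneg c (by norm_num)
  have e2 : r2 < 2 := hr2 ▸ Int.emod_lt_of_pos c (by norm_num)
  have e1' : 0 ≤ r2' := hr2' ▸ Int.emod_nonneg c' (by norm_num)
  have e2' : r2' < 2 := hr2' ▸ Int.emod_lt_of_pos c' (by norm_num)
  refine ⟨abs_le.2 ⟨by linarith, by linarith⟩, fun hcc => ?_⟩
  subst hcc
  have hrr : r2 = r2' := hr2.symm.trans hr2'
  subst hrr
  have hqw1 : w1 = w1' := by
    clear * - hw1a hw1b hw1a' hw1b'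
    omega
  linarith


end Pool.Agent.H29.Q.A1
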