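import Pool.Agent.H29.Q.PA1a

/-!
# Family A1 of switches: injectivity and coincidences [H29 Q] (generated)
-/

set_option autoImplicit false
set_option linter.unusedVariables false

namespace Pool.Agent.H29.Q.A1

theorem coin24 {N e c m u r2 w1 a m' a' : ℤ} (h : Cx N e c m u r2 w1 a) (h' : Cx N e c m' u r2 w1 a') :
    ((9 * m + 2 - 2 * N) - (c - 2) = (3 * m) - (2 * (3 * w1 + 1 - 3 * m) + c) → (9 * m' + 2 - 2 * N) - (c - 2) = (3 * m') - (2 * (3 * w1 + 1 - 3 * m') + c) → m = m') ∧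
    ((9 * m + 2 - 2 * N) + (c - 2) = (3 * m) + (2 * (3 * w1 + 1 - 3 * m) + c) → (9 * m' + 2 - 2 * N) + (c - 2) = (3 * m') + (2 * (3 * w1 + 1 - 3 * m') + c) → m = m') := by
  obtain ⟨hN, he, hN2, hc1, hc2, hI2, hr2, hr, hu, hw1a, hw1b, hm1, hm2, ha⟩ := h
  obtain ⟨hN', he', hN2', hc1', hc2', hI2', hr2', hr', hu', hw1a', hw1b', hm1', hm2', ha'⟩ := h'
  refine ⟨?_, ?_⟩ <;> intro hh hh' <;> first | linarith | omega

theorem coin34 {N e c m u r2 w1 a m' a' : ℤ} (h : Cx N e c m u r2 w1 a) (h' : Cx N e c m' u r2 w1 a') :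
    ((3 * w1 + 1 - 3 * m) - (2 * (3 * m) + c - 2 * N) = (3 * m) - (2 * (3 * w1 + 1 - 3 * m) + c) → (3 * w1 + 1 - 3 * m') - (2 * (3 * m') + c - 2 * N) = (3 * m') - (2 * (3 * w1 + 1 - 3 * m') + c) → m = m') ∧
    ((3 * w1 + 1 - 3 * m) + (2 * (3 * m) + c - 2 * N) = (3 * m) + (2 * (3 * w1 + 1 - 3 * m) + c) → (3 * w1 + 1 - 3 * m') + (2 * (3 * m') + c - 2 * N) = (3 * m') + (2 * (3 * w1 + 1 - 3 * m') + c) → m = m') := by
  obtain ⟨hN, he, hN2, hc1, hc2, hI2, hr2, hr, hu, hw1a, hw1b, hm1, hm2, ha⟩ := h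
  obtain ⟨hN', he', hN2', hc1', hc2', hI2', hr2', hr', hu', hw1a', hw1b', hm1', hm2', ha'⟩ := h'
  refine ⟨?_, ?_⟩ <;> intro hh hh' <;> first | linarith | omega


end Pool.Agent.H29.Q.A1
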