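import Pool.Agent.H29.Q.Data

/-!
# Family A2 of switches [H29 Q] (generated)
-/

set_option autoImplicit false
set_option linter.unusedVariables false

namespace Pool.Agent.H29.Q.A2

structure Cx (N e c m u r2 w1 w2 : ℤ) : Prop where
  hN : N % 6 = 5
  he : 10 ≤ e
  hN2 : 20000 * e ≤ N
  hc1 : 1000 * e ≤ c
  hc2 : c + 1000 * e ≤ N
  hI1 : 54 * N < 100 * c
  hr2 : c % 2 = r2
  hr : (c + 1 + r2) % 6 = 1
  hu : 2 * u = N - c - 1 - r2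
  hw1a : 36 * w1 ≤ 29 * N - 13 * c
  hw1b : 29 * N - 13 * c < 36 * w1 + 36
  hw2a : 144 * w2 ≤ -63 * N + 47 * c
  hw2b : -63 * N + 47 * c < 144 * w2 + 144
  hm1 : 13 * N - 5 * c ≤ 36 * m
  hm2 : 36 * m ≤ 13 * N - 5 * c + 36 * e + 36

def w1f (N c : ℤ) : ℤ := (29 * N - 13 * c) / 36

def w2f (N c : ℤ) : ℤ := (-63 * N + 47 * c) / 144

def dom (N c : ℤ) : Prop := 54 * N < 100 * c ∧ (c + 1 + c % 2) % 6 = 1

def dat : Data where
  H := fun N c m => [((3 * m + 2), (2 * (3 * m + 2) + c - 2 * N)), ((2 * (3 * m + 2) - (uu N c) - N), (2 * (2 * (3 * m + 2) - (uu N c) - N) + c - N)), ((3 * (w1f N c) - 6 * m), (2 * (3 * (w1f N c) - 6 * m) + c)), ((3 * (w2f N c) + 2 + 6 * m), (2 * (3 * (w2f N c) + 2 + 6 * m) + c - 2 * N))]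
  C := fun N c m => [((uu N c), (2 * (3 * m + 2) + c - 2 * N)), ((3 * m + 2), (2 * (2 * (3 * m + 2) - (uu N c) - N) + c - N)), ((2 * (3 * m + 2) - (uu N c) - N), (2 * (3 * (w1f N c) - 6 * m) + c)), ((3 * (w1f N c) - 6 * m), (2 * (3 * (w2f N c) + 2 + 6 * m) + c - 2 * N)), ((3 * (w2f N c) + 2 + 6 * m), (c - 2))]
  lo := fun N c => (13 * N - 5 * c) / 36 + 1
  par := fun N c => 0
  A := ![6, 6, -24, 24, -12]
  B := fun N c => ![-2 * N - 2 * uu N c + c + 4, -3 * N - 2 * uu N c + c + 4, 2 * N + 2 * uu N c + c + 6 * w1f N c - 8, -2 * N + c - 6 * w1f N c + 6 * w2f N c + 4, c - 6 * w2f N c - 6]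

theorem cx {N e c m : ℤ} (hR : Rng N e c) (hD : dom N c) (hW : Win dat N e c m) :
    Cx N e c m (uu N c) (c % 2) (w1f N c) (w2f N c) := by
  obtain ⟨hN, he, hN2, hc1, hc2⟩ := hR
  obtain ⟨h1, h2, h3⟩ := hW
  simp only [dat] at h1 h2 h3
  unfold dom at hD
  have hu : 2 * uu N c = N - c - 1 - c % 2 := by unfold uu; omega
  constructor <;> (try unfold w1f) <;> (try unfold w2f) <;> omega

theorem ranges {N e c m u r2 w1 w2 : ℤ} (h : Cx N e c m u r2 w1 w2) :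
    (0 ≤ (3 * m + 2) ∧ (3 * m + 2) < N - 2 ∧ 0 ≤ (2 * (3 * m + 2) + c - 2 * N) ∧ (2 * (3 * m + 2) + c - 2 * N) < N - 2) ∧
    (0 ≤ (2 * (3 * m + 2) - u - N) ∧ (2 * (3 * m + 2) - u - N) < N - 2 ∧ 0 ≤ (2 * (2 * (3 * m + 2) - u - N) + c - N) ∧ (2 * (2 * (3 * m + 2) - u - N) + c - N) < N - 2) ∧
    (0 ≤ (3 * w1 - 6 * m) ∧ (3 * w1 - 6 * m) < N - 2 ∧ 0 ≤ (2 * (3 * w1 - 6 * m) + c) ∧ (2 * (3 * w1 - 6 * m) + c) < N - 2) ∧
    (0 ≤ (3 * w2 + 2 + 6 * m) ∧ (3 * w2 + 2 + 6 * m) < N - 2 ∧ 0 ≤ (2 * (3 * w2 + 2 + 6 * m) + c - 2 * N) ∧ (2 * (3 * w2 + 2 + 6 * m) + c - 2 * N) < N - 2) := by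
  obtain ⟨hN, he, hN2, hc1, hc2, hI1, hr2, hr, hu, hw1a, hw1b, hw2a, hw2b, hm1, hm2⟩ := h
  have e1 : 0 ≤ r2 := hr2 ▸ Int.emod_nonneg c (by norm_num)
  have e2 : r2 < 2 := hr2 ▸ Int.emod_lt_of_pos c (by norm_num)
  refine ⟨⟨?_, ?_, ?_, ?_⟩, ⟨?_, ?_, ?_, ?_⟩, ⟨?_, ?_, ?_, ?_⟩, ⟨?_, ?_, ?_, ?_⟩⟩ <;> linarith

theorem free {N e c m u r2 w1 w2 x y : ℤ} (h : Cx N e c m u r2 w1 w2) (hB : Bs N c x y) :
    (x - y = u - (2 * (3 * m + 2) + c - 2 * N) → x = (2 * (3 * m + 2) - u - N)) ∧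
    (x + y = u + (2 * (3 * m + 2) + c - 2 * N) → False) ∧
    (x - y = (3 * m + 2) - (2 * (2 * (3 * m + 2) - u - N) + c - N) → False) ∧
    (x + y = (3 * m + 2) + (2 * (2 * (3 * m + 2) - u - N) + c - N) → False) ∧
    (x - y = (2 * (3 * m + 2) - u - N) - (2 * (3 * w1 - 6 * m) + c) → False) ∧
    (x + y = (2 * (3 * m + 2) - u - N) + (2 * (3 * w1 - 6 * m) + c) → False) ∧
    (x - y = (3 * w1 - 6 * m) - (2 * (3 * w2 + 2 + 6 * m) + c - 2 * N) → False) ∧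
    (x + y = (3 * w1 - 6 * m) + (2 * (3 * w2 + 2 + 6 * m) + c - 2 * N) → False) ∧
    (x - y = (3 * w2 + 2 + 6 * m) - (c - 2) → False) ∧
    (x + y = (3 * w2 + 2 + 6 * m) + (c - 2) → False) := by
  obtain ⟨hN, he, hN2, hc1, hc2, hI1, hr2, hr, hu, hw1a, hw1b, hw2a, hw2b, hm1, hm2⟩ := h
  have e1 : 0 ≤ r2 := hr2 ▸ Int.emod_nonneg c (by norm_num)
  have e2 : r2 < 2 := hr2 ▸ Int.emod_lt_of_pos c (by norm_num)
  obtain ⟨h0, h1, h2, h3, h | h | h⟩ := hB <;> subst h <;>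
    exact ⟨fun hh => by linarith,
      fun hh => by omega,
      fun hh => by linarith,
      fun hh => by omega,
      fun hh => by linarith,
      fun hh => by omega,
      fun hh => by linarith,
      fun hh => by omega,
      fun hh => by linarith,
      fun hh => by omega⟩

theorem rne {N e c m u r2 w1 w2 : ℤ} (h : Cx N e c m u r2 w1 w2) :
    (3 * m + 2) ≠ (2 * (3 * m + 2) - u - N) ∧
    (3 * m + 2) ≠ (3 * w1 - 6 * m) ∧
    (3 * m + 2) ≠ (3 * w2 + 2 + 6 * m) ∧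
    (2 * (3 * m + 2) - u - N) ≠ (3 * w1 - 6 * m) ∧
    (2 * (3 * m + 2) - u - N) ≠ (3 * w2 + 2 + 6 * m) ∧
    (3 * w1 - 6 * m) ≠ (3 * w2 + 2 + 6 * m) := by
  obtain ⟨hN, he, hN2, hc1, hc2, hI1, hr2, hr, hu, hw1a, hw1b, hw2a, hw2b, hm1, hm2⟩ := h
  have e1 : 0 ≤ r2 := hr2 ▸ Int.emod_nonneg c (by norm_num)
  have e2 : r2 < 2 := hr2 ▸ Int.emod_lt_of_pos c (by norm_num)
  refine ⟨?_, ?_, ?_, ?_, ?_, ?_⟩ <;> intro hh <;> linarith

theorem sw {N e c m : ℤ} (hR : Rng N e c) (hD : dom N c) (hW : Win dat N e c m) :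
    Sw N c (uu N c) (c - 2) (dat.H N c m) (dat.C N c m) := by
  have hC := cx hR hD hW
  have h1 := ranges hC
  have h2 := rne hC
  obtain ⟨⟨a0, b0, c0, d0⟩, ⟨a1, b1, c1, d1⟩, ⟨a2, b2, c2, d2⟩, ⟨a3, b3, c3, d3⟩⟩ := h1
  obtain ⟨n0, n1, n2, n3, n4, n5⟩ := h2
  have B0 : Bs N c (3 * m + 2) (2 * (3 * m + 2) + c - 2 * N) := ⟨a0, b0, c0, d0, Or.inr (Or.inr rfl)⟩
  have B1 : Bs N c (2 * (3 * m + 2) - (uu N c) - N) (2 * (2 * (3 * m + 2) - (uu N c) - N) + c - N) := ⟨a1, b1, c1, d1, Or.inr (Or.inl rfl)⟩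
  have B2 : Bs N c (3 * (w1f N c) - 6 * m) (2 * (3 * (w1f N c) - 6 * m) + c) := ⟨a2, b2, c2, d2, Or.inl rfl⟩
  have B3 : Bs N c (3 * (w2f N c) + 2 + 6 * m) (2 * (3 * (w2f N c) + 2 + 6 * m) + c - 2 * N) := ⟨a3, b3, c3, d3, Or.inr (Or.inr rfl)⟩
  constructor
  · intro p hp
    simp only [dat, List.mem_cons, List.not_mem_nil, or_false] at hp
    rcases hp with rfl | rfl | rfl | rfl
    · exact B0
    · exact B1
    · exact B2
    · exact B3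
  · rfl
  · apply Multiset.coe_eq_coe.mp
    simp only [dat, List.map_cons, List.map_nil, ← Multiset.cons_coe, ← Multiset.singleton_add, Multiset.coe_nil]
    abel
  · simp only [dat, List.map_cons, List.map_nil, List.nodup_cons, List.mem_cons, List.not_mem_nil, or_false, not_or, List.nodup_nil, and_true, not_false_eq_true]
    exact ⟨⟨n0, n1, n2⟩, ⟨n3, n4⟩, n5⟩
  · intro z hz x y hB hn
    have hf := free hC hB
    obtain ⟨f0, g0, f1, g1, f2, g2, f3, g3, f4, g4⟩ := hf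
    simp only [dat, List.mem_cons, List.not_mem_nil, or_false, Prod.mk.injEq, not_or] at hz hn
    rcases hz with rfl | rfl | rfl | rfl | rfl
    · exact ⟨fun hh => by
        have hx := f0 hh
        subst hx
        exact hn.2.1 ⟨rfl, Bs_unique hB B1⟩,
        fun hh => g0 hh⟩
    · exact ⟨fun hh => f1 hh,
        fun hh => g1 hh⟩
    · exact ⟨fun hh => f2 hh,
        fun hh => g2 hh⟩
    · exact ⟨fun hh => f3 hh,
        fun hh => g3 hh⟩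
    · exact ⟨fun hh => f4 hh,
        fun hh => g4 hh⟩

end Pool.Agent.H29.Q.A2
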