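import Pool.Agent.H29.Q.PB3b
import Pool.Agent.H29.Q.PB3c0
import Pool.Agent.H29.Q.PB3c1
import Pool.Agent.H29.Q.PB3c2
import Pool.Agent.H29.Q.PB3c3

/-!
# Family B3 of switches: summary [H29 Q] (generated)
-/

set_option autoImplicit false
set_option linter.unusedVariables false

namespace Pool.Agent.H29.Q.B3

theorem dvd {N c m : ℤ} (hp : (m - dat.par N c) % 2 = 0) (hN : N % 6 = 5) (hD : dom N c)
    (i : Fin 5) (z : ℤ × ℤ) (hz : (dat.C N c m)[(i : ℕ)]? = some z) :
    z.2 - 2 * z.1 = dat.A i * m + dat.B N c i := by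
  have hu : 2 * uu N c = N - c - 1 - c % 2 := by unfold uu; omega
  unfold dom at hD
  have ha : 2 * ra N c m = 9 * m - uu N c - N := by
    simp only [dat] at hp
    unfold ra
    omega
  fin_cases i <;> simp [dat] at hz ⊢ <;> (try subst hz) <;> (try dsimp only) <;> omega

theorem mult {N e c m c' m' : ℤ} (hR : Rng N e c) (hD : dom N c) (hW : Win dat N e c m)
    (hR' : Rng N e c') (hD' : dom N c') (hW' : Win dat N e c' m') (i : Fin 5) (z : ℤ × ℤ)
    (hz : (dat.C N c m)[(i : ℕ)]? = some z) (hz' : (dat.C N c' m')[(i : ℕ)]? = some z) :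
    |c - c'| ≤ 100 ∧ (c = c' → m = m') := by
  have hC := cx hR hD hW
  have hC' := cx hR' hD' hW'
  fin_cases i
  · simp [dat] at hz hz'
    subst hz
    simp only [Prod.mk.injEq] at hz'
    exact mult0 hC hC' hz'.1.symm hz'.2.symm
  · simp [dat] at hz hz'
    subst hz
    simp only [Prod.mk.injEq] at hz'
    exact mult1 hC hC' hz'.1.symm hz'.2.symm
  · simp [dat] at hz hz'
    subst hz
    simp only [Prod.mk.injEq] at hz'
    exact mult2 hC hC' hz'.1.symm hz'.2.symm
  · simp [dat] at hz hz'
    subst hz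
    simp only [Prod.mk.injEq] at hz'
    exact mult3 hC hC' hz'.1.symm hz'.2.symm
  · simp [dat] at hz hz'
    subst hz
    simp only [Prod.mk.injEq] at hz'
    exact mult4 hC hC' hz'.1.symm hz'.2.symm

theorem injH' {N e c m m' : ℤ} (hR : Rng N e c) (hD : dom N c) (hW : Win dat N e c m)
    (hW' : Win dat N e c m') (i : Fin 4) (z z' : ℤ × ℤ)
    (hz : (dat.H N c m)[(i : ℕ)]? = some z) (hz' : (dat.H N c m')[(i : ℕ)]? = some z') (h : z.1 = z'.1) :
    m = m' := by
  have hC := cx hR hD hW
  have hC' := cx hR hD hW'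
  have hI := injH hC hC'
  fin_cases i
  · simp [dat] at hz hz'
    subst hz
    subst hz'
    exact hI.1 h
  · simp [dat] at hz hz'
    subst hz
    subst hz'
    exact hI.2.1 h
  · simp [dat] at hz hz'
    subst hz
    subst hz'
    exact hI.2.2.1 h
  · simp [dat] at hz hz'
    subst hz
    subst hz'
    exact hI.2.2.2 h

theorem injD' {N e c m m' : ℤ} (hR : Rng N e c) (hD : dom N c) (hW : Win dat N e c m)
    (hW' : Win dat N e c m') (i : Fin 5) (z z' : ℤ × ℤ)
    (hz : (dat.C N c m)[(i : ℕ)]? = some z) (hz' : (dat.C N c m')[(i : ℕ)]? = some z')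
    (h : z.1 - z.2 = z'.1 - z'.2 ∨ z.1 + z.2 = z'.1 + z'.2) :
    m = m' := by
  have hC := cx hR hD hW
  have hC' := cx hR hD hW'
  have hI := injD hC hC'
  fin_cases i
  · simp [dat] at hz hz'
    subst hz
    subst hz'
    exact h.elim (fun h => hI.1 h) (fun h => hI.2.1 h)
  · simp [dat] at hz hz'
    subst hz
    subst hz'
    exact h.elim (fun h => hI.2.2.1 h) (fun h => hI.2.2.2.1 h)
  · simp [dat] at hz hz'
    subst hz
    subst hz'
    exact h.elim (fun h => hI.2.2.2.2.1 h) (fun h => hI.2.2.2.2.2.1 h)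
  · simp [dat] at hz hz'
    subst hz
    subst hz'
    exact h.elim (fun h => hI.2.2.2.2.2.2.1 h) (fun h => hI.2.2.2.2.2.2.2.1 h)
  · simp [dat] at hz hz'
    subst hz
    subst hz'
    exact h.elim (fun h => hI.2.2.2.2.2.2.2.2.1 h) (fun h => hI.2.2.2.2.2.2.2.2.2 h)

theorem coin' {N e c m m' : ℤ} (hR : Rng N e c) (hD : dom N c) (hW : Win dat N e c m)
    (hW' : Win dat N e c m') (i j : Fin 5) (hij : i < j) (z w z' w' : ℤ × ℤ)
    (hz : (dat.C N c m)[(i : ℕ)]? = some z) (hw : (dat.C N c m)[(j : ℕ)]? = some w)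
    (hz' : (dat.C N c m')[(i : ℕ)]? = some z') (hw' : (dat.C N c m')[(j : ℕ)]? = some w')
    (h : (z.1 - z.2 = w.1 - w.2 ∧ z'.1 - z'.2 = w'.1 - w'.2) ∨
      (z.1 + z.2 = w.1 + w.2 ∧ z'.1 + z'.2 = w'.1 + w'.2)) :
    m = m' := by
  have hC := cx hR hD hW
  have hC' := cx hR hD hW'
  fin_cases i
  · fin_cases j
    · exact absurd hij (by decide)
    · simp [dat] at hz hw hz' hw'
      subst hz
      subst hw
      subst hz'
      subst hw'
      exact h.elim (fun h => (coin01 hC hC').1 h.1 h.2) (fun h => (coin01 hC hC').2 h.1 h.2)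
    · simp [dat] at hz hw hz' hw'
      subst hz
      subst hw
      subst hz'
      subst hw'
      exact h.elim (fun h => (coin02 hC hC').1 h.1 h.2) (fun h => (coin02 hC hC').2 h.1 h.2)
    · simp [dat] at hz hw hz' hw'
      subst hz
      subst hw
      subst hz'
      subst hw'
      exact h.elim (fun h => (coin03 hC hC').1 h.1 h.2) (fun h => (coin03 hC hC').2 h.1 h.2)
    · simp [dat] at hz hw hz' hw'
      subst hz
      subst hw
      subst hz'
      subst hw'
      exact h.elim (fun h => (coin04 hC hC').1 h.1 h.2) (fun h => (coin04 hC hC').2 h.1 h.2)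
  · fin_cases j
    · exact absurd hij (by decide)
    · exact absurd hij (by decide)
    · simp [dat] at hz hw hz' hw'
      subst hz
      subst hw
      subst hz'
      subst hw'
      exact h.elim (fun h => (coin12 hC hC').1 h.1 h.2) (fun h => (coin12 hC hC').2 h.1 h.2)
    · simp [dat] at hz hw hz' hw'
      subst hz
      subst hw
      subst hz'
      subst hw'
      exact h.elim (fun h => (coin13 hC hC').1 h.1 h.2) (fun h => (coin13 hC hC').2 h.1 h.2)
    · simp [dat] at hz hw hz' hw'
      subst hz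
      subst hw
      subst hz'
      subst hw'
      exact h.elim (fun h => (coin14 hC hC').1 h.1 h.2) (fun h => (coin14 hC hC').2 h.1 h.2)
  · fin_cases j
    · exact absurd hij (by decide)
    · exact absurd hij (by decide)
    · exact absurd hij (by decide)
    · simp [dat] at hz hw hz' hw'
      subst hz
      subst hw
      subst hz'
      subst hw'
      exact h.elim (fun h => (coin23 hC hC').1 h.1 h.2) (fun h => (coin23 hC hC').2 h.1 h.2)
    · simp [dat] at hz hw hz' hw'
      subst hz
      subst hw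
      subst hz'
      subst hw'
      exact h.elim (fun h => (coin24 hC hC').1 h.1 h.2) (fun h => (coin24 hC hC').2 h.1 h.2)
  · fin_cases j
    · exact absurd hij (by decide)
    · exact absurd hij (by decide)
    · exact absurd hij (by decide)
    · exact absurd hij (by decide)
    · simp [dat] at hz hw hz' hw'
      subst hz
      subst hw
      subst hz'
      subst hw'
      exact h.elim (fun h => (coin34 hC hC').1 h.1 h.2) (fun h => (coin34 hC hC').2 h.1 h.2)
  · fin_cases j
    · exact absurd hij (by decide)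
    · exact absurd hij (by decide)
    · exact absurd hij (by decide)
    · exact absurd hij (by decide)
    · exact absurd hij (by decide)

theorem fam : Fam dat dom where
  sw := fun N e c m hR hD hW => sw hR hD hW
  lenC := fun N c m => by simp [dat]
  lenH := fun N c m => by simp [dat]
  hA := fun i => by fin_cases i <;> decide
  dvd := fun N c m hp hN hD i z hz => dvd hp hN hD i z hz
  mult := fun N e c m c' m' hR hD hW hR' hD' hW' i z hz hz' => mult hR hD hW hR' hD' hW' i z hz hz'
  injH := fun N e c m m' hR hD hW hW' i z z' hz hz' h => injH' hR hD hW hW' i z z' hz hz' h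
  injD := fun N e c m m' hR hD hW hW' i z z' hz hz' h => injD' hR hD hW hW' i z z' hz hz' h
  coin := fun N e c m m' hR hD hW hW' i j hij z w z' w' hz hw hz' hw' h =>
    coin' hR hD hW hW' i j hij z w z' w' hz hw hz' hw' h

end Pool.Agent.H29.Q.B3
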