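import Pool.Agent.H29.Q.PC1a

/-!
# Family C1 of switches: multiplicities [H29 Q] (generated)
-/

set_option autoImplicit false
set_option linter.unusedVariables false

namespace Pool.Agent.H29.Q.C1

theorem mult0 {N e c m u r2 w1 w2 a c' m' u' r2' w1' w2' a' : ℤ} (h : Cx N e c m u r2 w1 w2 a) (h' : Cx N e c' m' u' r2' w1' w2' a')
    (h1 : u = u') (h2 : (2 * a + c - N) = (2 * a' + c' - N)) :
    |c - c'| ≤ 100 ∧ (c = c' → m = m') := by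
  obtain ⟨hN, he, hN2, hc1, hc2, hI2, hr2, hr, hu, hw1a, hw1b, hw2a, hw2b, hm1, hm2, ha⟩ := h
  obtain ⟨hN', he', hN2', hc1', hc2', hI2', hr2', hr', hu', hw1a', hw1b', hw2a', hw2b', hm1', hm2', ha'⟩ := h'
  have e1 : 0 ≤ r2 := hr2 ▸ Int.emod_nonneg c (by norm_num)
  have e2 : r2 < 2 := hr2 ▸ Int.emod_lt_of_pos c (by norm_num)
  have e1' : 0 ≤ r2' := hr2' ▸ Int.emod_nonneg c' (by norm_num)
  have e2' : r2' < 2 := hr2' ▸ Int.emod_lt_of_pos c' (by norm_num)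
  refine ⟨abs_le.2 ⟨by linarith, by linarith⟩, fun hcc => ?_⟩
  subst hcc
  have hrr : r2 = r2' := hr2.symm.trans hr2'
  subst hrr
  have hqw1 : w1 = w1' := by
    clear * - hw1a hw1b hw1a' hw1b'
    omega
  have hqw2 : w2 = w2' := by
    clear * - hw2a hw2b hw2a' hw2b'
    omega
  linarith

theorem mult1 {N e c m u r2 w1 w2 a c' m' u' r2' w1' w2' a' : ℤ} (h : Cx N e c m u r2 w1 w2 a) (h' : Cx N e c' m' u' r2' w1' w2' a')
    (h1 : a = a') (h2 : (2 * (3 * m + 2) + c - 2 * N) = (2 * (3 * m' + 2) + c' - 2 * N)) :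
    |c - c'| ≤ 100 ∧ (c = c' → m = m') := by
  obtain ⟨hN, he, hN2, hc1, hc2, hI2, hr2, hr, hu, hw1a, hw1b, hw2a, hw2b, hm1, hm2, ha⟩ := h
  obtain ⟨hN', he', hN2', hc1', hc2', hI2', hr2', hr', hu', hw1a', hw1b', hw2a', hw2b', hm1', hm2', ha'⟩ := h'
  have e1 : 0 ≤ r2 := hr2 ▸ Int.emod_nonneg c (by norm_num)
  have e2 : r2 < 2 := hr2 ▸ Int.emod_lt_of_pos c (by norm_num)
  have e1' : 0 ≤ r2' := hr2' ▸ Int.emod_nonneg c' (by norm_num)
  have e2' : r2' < 2 := hr2' ▸ Int.emod_lt_of_pos c' (by norm_num)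
  refine ⟨abs_le.2 ⟨by linarith, by linarith⟩, fun hcc => ?_⟩
  subst hcc
  have hrr : r2 = r2' := hr2.symm.trans hr2'
  subst hrr
  have hqw1 : w1 = w1' := by
    clear * - hw1a hw1b hw1a' hw1b'
    omega
  have hqw2 : w2 = w2' := by
    clear * - hw2a hw2b hw2a' hw2b'
    omega
  linarith

theorem mult2 {N e c m u r2 w1 w2 a c' m' u' r2' w1' w2' a' : ℤ} (h : Cx N e c m u r2 w1 w2 a) (h' : Cx N e c' m' u' r2' w1' w2' a')
    (h1 : (3 * m + 2) = (3 * m' + 2)) (h2 : (2 * (3 * w1 - 3 * m) + c) = (2 * (3 * w1' - 3 * m') + c')) :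
    |c - c'| ≤ 100 ∧ (c = c' → m = m') := by
  obtain ⟨hN, he, hN2, hc1, hc2, hI2, hr2, hr, hu, hw1a, hw1b, hw2a, hw2b, hm1, hm2, ha⟩ := h
  obtain ⟨hN', he', hN2', hc1', hc2', hI2', hr2', hr', hu', hw1a', hw1b', hw2a', hw2b', hm1', hm2', ha'⟩ := h'
  have e1 : 0 ≤ r2 := hr2 ▸ Int.emod_nonneg c (by norm_num)
  have e2 : r2 < 2 := hr2 ▸ Int.emod_lt_of_pos c (by norm_num)
  have e1' : 0 ≤ r2' := hr2' ▸ Int.emod_nonneg c' (by norm_num)
  have e2' : r2' < 2 := hr2' ▸ Int.emod_lt_of_pos c' (by norm_num)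
  refine ⟨abs_le.2 ⟨by linarith, by linarith⟩, fun hcc => ?_⟩
  subst hcc
  have hrr : r2 = r2' := hr2.symm.trans hr2'
  subst hrr
  have hqw1 : w1 = w1' := by
    clear * - hw1a hw1b hw1a' hw1b'
    omega
  have hqw2 : w2 = w2' := by
    clear * - hw2a hw2b hw2a' hw2b'
    omega
  linarith

theorem mult3 {N e c m u r2 w1 w2 a c' m' u' r2' w1' w2' a' : ℤ} (h : Cx N e c m u r2 w1 w2 a) (h' : Cx N e c' m' u' r2' w1' w2' a')
    (h1 : (3 * w1 - 3 * m) = (3 * w1' - 3 * m')) (h2 : (2 * (3 * w2 + 1 + 3 * m) + c) = (2 * (3 * w2' + 1 + 3 * m') + c')) :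
    |c - c'| ≤ 100 ∧ (c = c' → m = m') := by
  obtain ⟨hN, he, hN2, hc1, hc2, hI2, hr2, hr, hu, hw1a, hw1b, hw2a, hw2b, hm1, hm2, ha⟩ := h
  obtain ⟨hN', he', hN2', hc1', hc2', hI2', hr2', hr', hu', hw1a', hw1b', hw2a', hw2b', hm1', hm2', ha'⟩ := h'
  have e1 : 0 ≤ r2 := hr2 ▸ Int.emod_nonneg c (by norm_num)
  have e2 : r2 < 2 := hr2 ▸ Int.emod_lt_of_pos c (by norm_num)
  have e1' : 0 ≤ r2' := hr2' ▸ Int.emod_nonneg c' (by norm_num)
  have e2' : r2' < 2 := hr2' ▸ Int.emod_lt_of_pos c' (by norm_num)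
  refine ⟨abs_le.2 ⟨by linarith, by linarith⟩, fun hcc => ?_⟩
  subst hcc
  have hrr : r2 = r2' := hr2.symm.trans hr2'
  subst hrr
  have hqw1 : w1 = w1' := by
    clear * - hw1a hw1b hw1a' hw1b'
    omega
  have hqw2 : w2 = w2' := by
    clear * - hw2a hw2b hw2a' hw2b'
    omega
  linarith

theorem mult4 {N e c m u r2 w1 w2 a c' m' u' r2' w1' w2' a' : ℤ} (h : Cx N e c m u r2 w1 w2 a) (h' : Cx N e c' m' u' r2' w1' w2' a')
    (h1 : (3 * w2 + 1 + 3 * m) = (3 * w2' + 1 + 3 * m')) (h2 : (c - 2) = (c' - 2)) :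
    |c - c'| ≤ 100 ∧ (c = c' → m = m') := by
  obtain ⟨hN, he, hN2, hc1, hc2, hI2, hr2, hr, hu, hw1a, hw1b, hw2a, hw2b, hm1, hm2, ha⟩ := h
  obtain ⟨hN', he', hN2', hc1', hc2', hI2', hr2', hr', hu', hw1a', hw1b', hw2a', hw2b', hm1', hm2', ha'⟩ := h'
  have e1 : 0 ≤ r2 := hr2 ▸ Int.emod_nonneg c (by norm_num)
  have e2 : r2 < 2 := hr2 ▸ Int.emod_lt_of_pos c (by norm_num)
  have e1' : 0 ≤ r2' := hr2' ▸ Int.emod_nonneg c' (by norm_num)
  have e2' : r2' < 2 := hr2' ▸ Int.emod_lt_of_pos c' (by norm_num)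
  refine ⟨abs_le.2 ⟨by linarith, by linarith⟩, fun hcc => ?_⟩
  subst hcc
  have hrr : r2 = r2' := hr2.symm.trans hr2'
  subst hrr
  have hqw1 : w1 = w1' := by
    clear * - hw1a hw1b hw1a' hw1b'
    omega
  have hqw2 : w2 = w2' := by
    clear * - hw2a hw2b hw2a' hw2b'
    omega
  linarith


end Pool.Agent.H29.Q.C1
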