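import Pool.Agent.H29.Q.PA1d
import Pool.Agent.H29.Q.PA2d
import Pool.Agent.H29.Q.PB1d
import Pool.Agent.H29.Q.PB2d
import Pool.Agent.H29.Q.PB3d
import Pool.Agent.H29.Q.PC1d
import Pool.Agent.H29.Q.PC2d
import Pool.Agent.H29.Q.PC3d

/-!
# The eight families cover all classes [H29 Q]
-/

set_option autoImplicit false

namespace Pool.Agent.H29.Q

theorem Fam.mono {P : Data} {d d' : ℤ → ℤ → Prop} (h : Fam P d) (hd : ∀ N c, N % 6 = 5 → d' N c → d N c) :
    Fam P d' where
  sw := fun N e c m hR hD hW => h.sw N e c m hR (hd N c hR.hN hD) hW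
  lenC := h.lenC
  lenH := h.lenH
  hA := h.hA
  dvd := fun N c m hp hN hD => h.dvd N c m hp hN (hd N c hN hD)
  mult := fun N e c m c' m' hR hD hW hR' hD' hW' =>
    h.mult N e c m c' m' hR (hd N c hR.hN hD) hW hR' (hd N c' hR.hN hD') hW'
  injH := fun N e c m m' hR hD hW hW' => h.injH N e c m m' hR (hd N c hR.hN hD) hW hW'
  injD := fun N e c m m' hR hD hW hW' => h.injD N e c m m' hR (hd N c hR.hN hD) hW hW'
  coin := fun N e c m m' hR hD hW hW' => h.coin N e c m m' hR (hd N c hR.hN hD) hW hW'

/-- number of the family used for class `c` -/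
def pid (N c : ℤ) : Fin 8 :=
  if (c + 1 + c % 2) % 6 = 1 then (if 100 * c ≤ 54 * N then 0 else 1)
  else if (c + 1 + c % 2) % 6 = 3 then
    (if 100 * c ≤ 40 * N then 2 else if 100 * c ≤ 54 * N then 3 else 4)
  else (if 100 * c ≤ 40 * N then 5 else if 100 * c ≤ 54 * N then 6 else 7)

def pd : Fin 8 → Data :=
  ![A1.dat, A2.dat, B1.dat, B2.dat, B3.dat, C1.dat, C2.dat, C3.dat]

theorem fams (j : Fin 8) : Fam (pd j) (fun N c => pid N c = j) := by
  fin_cases j
  · refine A1.fam.mono fun N c hN h => ?_
    simp only [pid] at h
    unfold A1.dom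
    split_ifs at h <;> first | exact absurd h (by decide) | omega
  · refine A2.fam.mono fun N c hN h => ?_
    simp only [pid] at h
    unfold A2.dom
    split_ifs at h <;> first | exact absurd h (by decide) | omega
  · refine B1.fam.mono fun N c hN h => ?_
    simp only [pid] at h
    unfold B1.dom
    split_ifs at h <;> first | exact absurd h (by decide) | omega
  · refine B2.fam.mono fun N c hN h => ?_
    simp only [pid] at h
    unfold B2.dom
    split_ifs at h <;> first | exact absurd h (by decide) | omega
  · refine B3.fam.mono fun N c hN h => ?_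
    simp only [pid] at h
    unfold B3.dom
    split_ifs at h <;> first | exact absurd h (by decide) | omega
  · refine C1.fam.mono fun N c hN h => ?_
    simp only [pid] at h
    unfold C1.dom
    split_ifs at h <;> first | exact absurd h (by decide) | omega
  · refine C2.fam.mono fun N c hN h => ?_
    simp only [pid] at h
    unfold C2.dom
    split_ifs at h <;> first | exact absurd h (by decide) | omega
  · refine C3.fam.mono fun N c hN h => ?_
    simp only [pid] at h
    unfold C3.dom
    split_ifs at h <;> first | exact absurd h (by decide) | omega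

/-- the family of class `c` -/
def fm (N c : ℤ) : Data := pd (pid N c)

theorem fm_fam (N c : ℤ) : Fam (fm N c) (fun N' c' => pid N' c' = pid N c) := fams _

end Pool.Agent.H29.Q
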